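import Pool.Agent.H673.VTC.Defs

/-!
# A countable family of functions closed under the operations we need
-/

set_option autoImplicit false

namespace Pool.Agent.H673.VTC

open Finset

open scoped Classical in
/-- The number whose binary digits are given by `P` below `b`. -/
noncomputable def bitsOf (b : ℕ) (P : ℕ → Prop) : ℕ :=
  Nat.ofBits (fun i : Fin b => decide (P i))

theorem testBit_bitsOf (b : ℕ) (P : ℕ → Prop) (z : ℕ) :
    (bitsOf b P).testBit z = true ↔ z < b ∧ P z := by
  classical
  unfold bitsOf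
  rw [Nat.testBit_ofBits]
  split_ifs with h
  · simp [h]
  · simp [h]

theorem bitsOf_lt (b : ℕ) (P : ℕ → Prop) : bitsOf b P < 2 ^ b := Nat.ofBits_lt_two_pow _

theorem size_bitsOf_le (b : ℕ) (P : ℕ → Prop) : (bitsOf b P).size ≤ b :=
  Nat.size_le.2 (bitsOf_lt b P)

/-- the pairing function of bounded arithmetic on `ℕ` -/
def prN (x y : ℕ) : ℕ := (x + y) * (x + y + 1) + 2 * y

theorem prN_inj {x y x' y' : ℕ} (h : prN x y = prN x' y') : x = x' ∧ y = y' := by
  unfold prN at h
  have key : ∀ a b a' b' : ℕ, a + b < a' + b' →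
      (a + b) * (a + b + 1) + 2 * b < (a' + b') * (a' + b' + 1) + 2 * b' := by
    intro a b a' b' hlt
    have h1 : (a + b + 1) * (a + b + 1 + 1) ≤ (a' + b') * (a' + b' + 1) :=
      Nat.mul_le_mul hlt (by omega)
    nlinarith
  rcases lt_trichotomy (x + y) (x' + y') with hlt | heq | hgt
  · exact absurd h (key _ _ _ _ hlt).ne
  · rw [heq] at h
    omega
  · exact absurd h.symm (key _ _ _ _ hgt).ne

theorem prN_lt {x y s : ℕ} (hx : x ≤ s) (hy : y ≤ s) : prN x y < (2 * s + 2) ^ 2 := by
  unfold prN
  nlinarith [Nat.mul_le_mul (show x + y ≤ 2 * s by omega) (show x + y + 1 ≤ 2 * s + 1 by omega)]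

/-- number of elements of the set coded by `x` which are below `z` -/
def cnt (x z : ℕ) : ℕ := ((range z).filter (fun i => x.testBit i = true)).card

theorem cnt_zero (x : ℕ) : cnt x 0 = 0 := by simp [cnt]

theorem cnt_succ (x z : ℕ) : cnt x (z + 1) = cnt x z + if x.testBit z = true then 1 else 0 := by
  unfold cnt
  rw [range_add_one, filter_insert]
  split_ifs with h
  · rw [card_insert_of_notMem]
    simp
  · simp

theorem cnt_le (x z : ℕ) : cnt x z ≤ z := by
  unfold cnt
  refine (card_filter_le _ _).trans ?_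
  simp

/-- the table of the counting function of `x` -/
noncomputable def numTable (x : ℕ) : ℕ :=
  bitsOf ((2 * x.size + 2) ^ 2) (fun w => ∃ z ≤ x.size, w = prN z (cnt x z))

/-- the table of the partial sums in the multiplication of `x` and `y` -/
noncomputable def mulTable (x y : ℕ) : ℕ :=
  bitsOf ((2 * (x.size + y.size) + 2) ^ 2)
    (fun w => ∃ i ≤ x.size, ∃ j, w = prN i j ∧ ((x % 2 ^ i) * y).testBit j = true)

/-- the carry at the place `i` in the addition of `x` and `y` -/
def carryN (x y i : ℕ) : Prop :=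
  ∃ k, k < i ∧ x.testBit k = true ∧ y.testBit k = true ∧
    ∀ j, k < j → j < i → x.testBit j = true ∨ y.testBit j = true

open scoped Classical in
/-- a witness for a carry -/
noncomputable def carK (x y i : ℕ) : ℕ := if h : carryN x y i then Nat.find h else 0

open scoped Classical in
/-- a place between `k` and `i` at which both digits are `0` -/
noncomputable def badJ (x y k i : ℕ) : ℕ :=
  if h : ∃ j, k < j ∧ j < i ∧ ¬ x.testBit j = true ∧ ¬ y.testBit j = true then Nat.find h else 0

/-- the largest place at which `x` and `y` differ -/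
def topDiff (x y : ℕ) : ℕ := (x ^^^ y).size - 1

/-- the summand in the school method of multiplication -/
def shiftIf (x y i : ℕ) : ℕ := if x.testBit i = true then y * 2 ^ i else 0

/-- the row `i` of the table `w` -/
noncomputable def rowN (w i : ℕ) : ℕ := bitsOf w.size (fun j => w.testBit (prN i j) = true)

/-- the partial sums in the school method -/
def partN (x y i : ℕ) : ℕ := (x % 2 ^ i) * y

open scoped Classical in
/-- the first wrong row of the table `w` -/
noncomputable def wrongRow (w x y : ℕ) : ℕ :=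
  if h : ∃ i, rowN w i ≠ partN x y i then Nat.find h else 0

/-- basic functions -/
noncomputable def baseFn : ℕ → ℕ → ℕ
  | 0, x => x.unpair.1
  | 1, x => x.unpair.2
  | 2, x => x.unpair.1 + x.unpair.2
  | 3, x => x.unpair.1 - x.unpair.2
  | 4, x => x.unpair.1 * x.unpair.2
  | 5, x => x.unpair.1 / x.unpair.2
  | 6, x => x.unpair.1 % x.unpair.2
  | 7, x => x.size
  | 8, x => if x.unpair.2.testBit x.unpair.1 = true then 1 else 0
  | 9, x => if x.unpair.1 ≤ x.unpair.2 then 1 else 0
  | 10, x => if x.unpair.1 = x.unpair.2 then 1 else 0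
  | 11, x => 2 ^ x
  | 12, x => numTable x
  | 13, x => mulTable x.unpair.1 x.unpair.2
  | 14, x => if x = 0 then 1 else 0
  | 15, x => 2 ^ (2 ^ x) - 1
  | 16, x => cnt x.unpair.1 x.unpair.2
  | 17, x => x
  | 18, x => carK x.unpair.1 x.unpair.2.unpair.1 x.unpair.2.unpair.2
  | 19, x => badJ x.unpair.1 x.unpair.2.unpair.1 x.unpair.2.unpair.2.unpair.1
      x.unpair.2.unpair.2.unpair.2
  | 20, x => topDiff x.unpair.1 x.unpair.2
  | 21, x => shiftIf x.unpair.1 x.unpair.2.unpair.1 x.unpair.2.unpair.2
  | 22, x => rowN x.unpair.1 x.unpair.2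
  | 23, x => partN x.unpair.1 x.unpair.2.unpair.1 x.unpair.2.unpair.2
  | 24, x => wrongRow x.unpair.1 x.unpair.2.unpair.1 x.unpair.2.unpair.2
  | _, x => x

/-- the truncated value -/
def valFn (g : ℕ → ℕ) (n a z : ℕ) : ℕ := min (g (Nat.pair a z)) (n + 1)

/-- the elements of the set coded by `d` below `2 ^ n` at which the truncated value is `c` -/
def cls (g : ℕ → ℕ) (d n a c : ℕ) : Finset ℕ :=
  (range (2 ^ n)).filter (fun z => d.testBit z = true ∧ valFn g n a z = c)

theorem exists_mode (g : ℕ → ℕ) (d n a : ℕ) :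
    ∃ c ∈ range (n + 2), ∀ c' ∈ range (n + 2), (cls g d n a c').card ≤ (cls g d n a c).card :=
  exists_max_image _ _ ⟨0, by simp⟩

/-- a most frequent truncated value -/
noncomputable def mode (g : ℕ → ℕ) (d n a : ℕ) : ℕ := Classical.choose (exists_mode g d n a)

theorem mode_spec (g : ℕ → ℕ) (d n a : ℕ) : mode g d n a ≤ n + 1 ∧
    ∀ c' ≤ n + 1, (cls g d n a c').card ≤ (cls g d n a (mode g d n a)).card := by
  have h := Classical.choose_spec (exists_mode g d n a)
  refine ⟨?_, fun c' hc' => h.2 c' (by simp; omega)⟩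
  have := mem_range.1 h.1
  exact Nat.lt_succ_iff.1 this

/-- the code of the class of the most frequent value -/
noncomputable def refine' (g : ℕ → ℕ) (d n a : ℕ) : ℕ :=
  bitsOf (2 ^ n) (fun z => d.testBit z = true ∧ valFn g n a z = mode g d n a)

/-- Codes for the functions of our family. -/
inductive Code : Type
  | base (i : ℕ)
  | const (k : ℕ)
  | comp (f g : Code)
  | pair (f g : Code)
  | search (f : Code)
  | ex (f : Code)
  | compr (f : Code)
  | modeC (f : Code)
  | refC (f : Code)
  deriving Countable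

open scoped Classical in
/-- Evaluation of codes. -/
noncomputable def Code.eval : Code → ℕ → ℕ
  | .base i, x => baseFn i x
  | .const k, _ => k
  | .comp f g, x => f.eval (g.eval x)
  | .pair f g, x => Nat.pair (f.eval x) (g.eval x)
  | .search f, x =>
      if h : ∃ z, z ≤ x.unpair.1 ∧ f.eval (Nat.pair z x.unpair.2) ≠ 0 then Nat.find h else 0
  | .ex f, x => if ∃ z, z ≤ x.unpair.1 ∧ f.eval (Nat.pair z x.unpair.2) ≠ 0 then 1 else 0
  | .compr f, x => bitsOf x.unpair.1 (fun z => f.eval (Nat.pair z x.unpair.2) ≠ 0)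
  | .modeC f, x => mode f.eval x.unpair.1 x.unpair.2.unpair.1 x.unpair.2.unpair.2
  | .refC f, x => refine' f.eval x.unpair.1 x.unpair.2.unpair.1 x.unpair.2.unpair.2

instance : Nonempty Code := ⟨.const 0⟩

end Pool.Agent.H673.VTC
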