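import Mathlib

/-!
# Two-sorted bounded arithmetic, `VTC⁰`, its ring of binary integers, and exponential integer parts

The two-sorted language and the theories `V⁰` and `VTC⁰` are those of Cook and Nguyen,
Logical foundations of proof complexity: the axioms 2-BASIC, comprehension for `Σ^B_0` formulas,
and the axiom NUMONES (each string has a table counting its elements).
-/

set_option autoImplicit false

namespace Pool.Agent.H673.VTC

universe u

/-- Structures for the two-sorted language `0, 1, +, ·, ≤, | |, ∈` of bounded arithmetic: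
a sort `Num` of numbers and a sort `Str` of strings (finite sets of numbers). -/
structure TwoSorted where
  /-- the number sort -/
  Num : Type
  /-- the string sort -/
  Str : Type
  /-- the number `0` -/
  zero : Num
  /-- the number `1` -/
  one : Num
  /-- addition of numbers -/
  add : Num → Num → Num
  /-- multiplication of numbers -/
  mul : Num → Num → Num
  /-- the order of the numbers -/
  le : Num → Num → Prop
  /-- the length `|X|` of a string -/
  len : Str → Num
  /-- `mem i X` is `i ∈ X`, also written `X(i)` -/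
  mem : Num → Str → Prop

/-- Number terms with number variables indexed by `Fin n` and string variables indexed by
`Fin s`. -/
inductive Tm (n s : ℕ) : Type
  | var (i : Fin n) : Tm n s
  | zero : Tm n s
  | one : Tm n s
  | add (t u : Tm n s) : Tm n s
  | mul (t u : Tm n s) : Tm n s
  | len (j : Fin s) : Tm n s

/-- `Σ^B_0` formulas: all number quantifiers are bounded, and there are no string quantifiers.
`allLe t φ` is `∀ x ≤ t, φ`, where in `φ` the variable `x` has number `0` and the numbers of the
other number variables are increased by one. -/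
inductive Fm (s : ℕ) : ℕ → Type
  | eq {n : ℕ} (t u : Tm n s) : Fm s n
  | le {n : ℕ} (t u : Tm n s) : Fm s n
  | mem {n : ℕ} (t : Tm n s) (j : Fin s) : Fm s n
  | strEq {n : ℕ} (i j : Fin s) : Fm s n
  | not {n : ℕ} (φ : Fm s n) : Fm s n
  | and {n : ℕ} (φ ψ : Fm s n) : Fm s n
  | allLe {n : ℕ} (t : Tm n s) (φ : Fm s (n + 1)) : Fm s n

namespace TwoSorted

variable (M : TwoSorted)

/-- The value of a number term. -/
def val {n s : ℕ} (v : Fin n → M.Num) (V : Fin s → M.Str) : Tm n s → M.Num
  | .var i => v i
  | .zero => M.zero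
  | .one => M.one
  | .add t u => M.add (val v V t) (val v V u)
  | .mul t u => M.mul (val v V t) (val v V u)
  | .len j => M.len (V j)

/-- Satisfaction of `Σ^B_0` formulas. -/
def Sat {s : ℕ} (V : Fin s → M.Str) : {n : ℕ} → Fm s n → (Fin n → M.Num) → Prop
  | _, .eq t u, v => M.val v V t = M.val v V u
  | _, .le t u, v => M.le (M.val v V t) (M.val v V u)
  | _, .mem t j, v => M.mem (M.val v V t) (V j)
  | _, .strEq i j, _ => V i = V j
  | _, .not φ, v => ¬ Sat V φ v
  | _, .and φ ψ, v => Sat V φ v ∧ Sat V ψ v
  | _, .allLe t φ, v => ∀ x : M.Num, M.le x (M.val v V t) → Sat V φ (Matrix.vecCons x v)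

/-- The strict order of the numbers: `x < y` stands for `x ≤ y ∧ x ≠ y`. -/
def lt (x y : M.Num) : Prop := M.le x y ∧ x ≠ y

/-- The axioms 2-BASIC of Cook and Nguyen. -/
structure Basic2 : Prop where
  B1 : ∀ x, M.add x M.one ≠ M.zero
  B2 : ∀ x y, M.add x M.one = M.add y M.one → x = y
  B3 : ∀ x, M.add x M.zero = x
  B4 : ∀ x y, M.add x (M.add y M.one) = M.add (M.add x y) M.one
  B5 : ∀ x, M.mul x M.zero = M.zero
  B6 : ∀ x y, M.mul x (M.add y M.one) = M.add (M.mul x y) x
  B7 : ∀ x y, M.le x y → M.le y x → x = y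
  B8 : ∀ x y, M.le x (M.add x y)
  B9 : ∀ x, M.le M.zero x
  B10 : ∀ x y, M.le x y ∨ M.le y x
  B11 : ∀ x y, M.le x y ↔ M.lt x (M.add y M.one)
  B12 : ∀ x, x ≠ M.zero → ∃ y, M.le y x ∧ M.add y M.one = x
  L1 : ∀ (X : M.Str) (y : M.Num), M.mem y X → M.lt y (M.len X)
  L2 : ∀ (X : M.Str) (y : M.Num), M.add y M.one = M.len X → M.mem y X
  SE : ∀ X Y : M.Str, M.len X = M.len Y → (∀ i, M.lt i (M.len X) → (M.mem i X ↔ M.mem i Y)) →
    X = Y

/-- The comprehension scheme for `Σ^B_0` formulas, with parameters of both sorts. -/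
def SigmaB0Comp : Prop :=
  ∀ (n s : ℕ) (φ : Fm s (n + 1)) (v : Fin n → M.Num) (V : Fin s → M.Str) (y : M.Num),
    ∃ X : M.Str, M.le (M.len X) y ∧
      ∀ z, M.lt z y → (M.mem z X ↔ M.Sat V φ (Matrix.vecCons z v))

/-- The pairing function `⟨x, y⟩ = (x + y)(x + y + 1) + 2y`. -/
def pair (x y : M.Num) : M.Num :=
  M.add (M.mul (M.add x y) (M.add (M.add x y) M.one)) (M.mul (M.add M.one M.one) y)

/-- The axiom NUMONES: for each string `X` there is a string `Y` which codes the function that maps
`z ≤ |X|` to the number of elements of `X` below `z`. -/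
def NumOnes : Prop :=
  ∀ X : M.Str, ∃ Y : M.Str,
    (∀ z, M.le z (M.len X) → ∃! y, M.mem (M.pair z y) Y) ∧
    M.mem (M.pair M.zero M.zero) Y ∧
    ∀ z, M.lt z (M.len X) → ∀ y, M.mem (M.pair z y) Y →
      (M.mem z X → M.mem (M.pair (M.add z M.one) (M.add y M.one)) Y) ∧
      (¬ M.mem z X → M.mem (M.pair (M.add z M.one) y) Y)

/-- Models of `V⁰`. -/
structure V0 : Prop where
  basic : M.Basic2
  comp : M.SigmaB0Comp

/-- Models of `VTC⁰`. -/
structure VTC0 : Prop extends M.V0 where
  numOnes : M.NumOnes

/-! ### The binary integers of a structure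

A string `X` codes the number `∑_{i ∈ X} 2^i`. -/

/-- The order of the binary numbers: at the largest place where `X` and `Y` differ, `Y` has the
digit `1`. -/
def ltS (X Y : M.Str) : Prop :=
  ∃ i, M.mem i Y ∧ ¬ M.mem i X ∧ ∀ j, M.lt i j → (M.mem j X ↔ M.mem j Y)

/-- The carry at the place `i` in the addition of the binary numbers with the digits `P` and `Q`:
there is a place `k < i` at which a carry is generated and then propagated. -/
def Carry (P Q : M.Num → Prop) (i : M.Num) : Prop :=
  ∃ k, M.lt k i ∧ P k ∧ Q k ∧ ∀ j, M.lt k j → M.lt j i → P j ∨ Q j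

/-- `R` gives the digits of the sum of the binary numbers with the digits `P` and `Q`: each digit
of the sum is the exclusive or of the two digits and the carry. -/
def AddP (P Q R : M.Num → Prop) : Prop :=
  ∀ i, R i ↔ Xor (Xor (P i) (Q i)) (M.Carry P Q i)

/-- Addition of binary numbers. -/
def AddS (X Y Z : M.Str) : Prop :=
  M.AddP (fun i => M.mem i X) (fun i => M.mem i Y) (fun i => M.mem i Z)

/-- Multiplication of binary numbers by the school method: there is a table `W` of partial sums
with rows `W_i = {j : ⟨i, j⟩ ∈ W}` such that `W_0 = 0`, `W_{i+1} = W_i + X(i) · 2^i · Y` for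
`i < |X|`, and `Z = W_{|X|}`. -/
def MulS (X Y Z : M.Str) : Prop :=
  ∃ W : M.Str, (∀ j, ¬ M.mem (M.pair M.zero j) W) ∧
    (∀ i, M.lt i (M.len X) →
      M.AddP (fun j => M.mem (M.pair i j) W)
        (fun j => M.mem i X ∧ ∃ l, M.add l i = j ∧ M.mem l Y)
        (fun j => M.mem (M.pair (M.add i M.one) j) W)) ∧
    ∀ j, M.mem j Z ↔ M.mem (M.pair (M.len X) j) W

/-- The ordered ring `Z` is (a copy of) the ring of binary integers of `M`: its nonnegative
elements correspond to the strings of `M` via `ι`, which respects the order, addition and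
multiplication of binary numbers, and all other elements are negatives of such elements. -/
def IsRingOf (Z : Type u) [CommRing Z] [LinearOrder Z] [IsStrictOrderedRing Z] : Prop :=
  ∃ ι : M.Str → Z, Function.Injective ι ∧ (∀ X, 0 ≤ ι X) ∧ (∀ z, ∃ X, z = ι X ∨ z = - ι X) ∧
    (∀ X Y, M.ltS X Y → ι X < ι Y) ∧
    (∀ X Y Z, M.AddS X Y Z → ι Z = ι X + ι Y) ∧
    (∀ X Y Z, M.MulS X Y Z → ι Z = ι X * ι Y)

end TwoSorted

/-! ### Exponential fields and integer parts -/

section Fields

variable {R : Type u} [Field R] [LinearOrder R] [IsStrictOrderedRing R]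

/-- `E` is an isomorphism of the ordered groups `(R, +, <)` and `(R_{>0}, ·, <)` with
`E 1 = 2`. -/
structure IsExp (E : R → R) : Prop where
  map_one : E 1 = 2
  map_add : ∀ x y, E (x + y) = E x * E y
  strictMono : StrictMono E
  pos : ∀ x, 0 < E x
  surj : ∀ y, 0 < y → ∃ x, E x = y

/-- `Z` is an integer part of the ordered field `R`: a discretely ordered subring such that each
element of `R` lies in an interval `[z, z + 1)` with `z ∈ Z`. -/
structure IsIntegerPart (Z : Subring R) : Prop where
  discrete : ∀ z ∈ Z, 0 < z → 1 ≤ z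
  floor : ∀ r : R, ∃ z ∈ Z, z ≤ r ∧ r < z + 1

/-- `Z` is an exponential integer part of `(R, E)`. -/
structure IsExpIntegerPart (E : R → R) (Z : Subring R) : Prop extends IsIntegerPart Z where
  exp_mem : ∀ a ∈ Z, 0 < a → E a ∈ Z

end Fields

/-- `M` is an exponential integer part of a real-closed exponential field: the ring of binary
integers of `M` is isomorphic to an exponential integer part of a real-closed exponential
field. -/
def TwoSorted.IsExpIPOfRCEF (M : TwoSorted) : Prop :=
  ∃ (R : Type u) (_ : Field R) (_ : LinearOrder R) (_ : IsStrictOrderedRing R)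
    (_ : IsRealClosed R) (E : R → R) (Z : Subring R),
    IsExp E ∧ IsExpIntegerPart E Z ∧ M.IsRingOf Z

end Pool.Agent.H673.VTC
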