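import Pool.Agent.H673.VTC.Ring

/-!
# The counting argument
-/

set_option autoImplicit false

namespace Pool.Agent.H673.VTC

open Filter TwoSorted

universe u

variable {U : Ultrafilter ℕ} {S : Set (ℕ → ℕ)} {hU : (U : Filter ℕ) ≤ atTop}

theorem exists_const {q : ℕ → ℕ} {k : ℕ} (h : ∀ᶠ n in (U : Filter ℕ), q n ≤ k) :
    ∃ j, ∀ᶠ n in (U : Filter ℕ), q n = j := by
  induction k with
  | zero => exact ⟨0, h.mono fun n hn => Nat.le_zero.1 hn⟩
  | succ k ih =>
    have h1 : ∀ᶠ n in (U : Filter ℕ), q n ≤ k ∨ q n = k + 1 :=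
      h.mono fun n hn => by omega
    rcases Ultrafilter.eventually_or.1 h1 with h1 | h1
    · exact ih h1
    · exact ⟨k + 1, h1⟩

/-- The lengths of the numbers of the structure. -/
theorem countable_range_size (hthin : Thin U S) :
    (Set.range (fun m : (mod S hU).Num => m.1.map Nat.size)).Countable := by
  have h1 : (Set.image2 (fun (q : ℕ) (h : ℕ → ℕ) =>
      ((fun n => q * (n + 1) + h n : ℕ → ℕ) : G U)) Set.univ {h | Hull ∅ h}).Countable :=
    (Set.to_countable _).image2 (hull_countable Set.countable_empty) _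
  refine h1.mono ?_
  rintro _ ⟨m, rfl⟩
  obtain ⟨a, ha⟩ := exists_repN hU m
  obtain ⟨k, hk⟩ := ha.bound
  have hr : Hull S (fun n => (a n).size % (n + 1)) := by
    have := Hull.app₂ (.base 6) ha.1.size (Hull.app₂ (.base 2) Hull.id (Hull.const 1))
    simpa [Code.eval, baseFn] using this
  obtain ⟨h, hh, hrh⟩ := hthin _ hr (Eventually.of_forall fun n => by
    exact Nat.lt_succ_iff.1 (Nat.mod_lt _ (Nat.succ_pos n)))
  have hq : ∀ᶠ n in (U : Filter ℕ), (a n).size / (n + 1) ≤ k := by
    filter_upwards [hk] with n hn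
    have h2 : (a n).size ≤ n * k := Nat.size_le.2 hn
    calc (a n).size / (n + 1) ≤ (n * k) / (n + 1) := Nat.div_le_div_right h2
      _ ≤ ((n + 1) * k) / (n + 1) := Nat.div_le_div_right (Nat.mul_le_mul_right _ (by omega))
      _ = k := Nat.mul_div_cancel_left _ (Nat.succ_pos n)
  obtain ⟨j, hj⟩ := exists_const hq
  refine ⟨j, Set.mem_univ _, h, hh, ?_⟩
  show ((fun n => j * (n + 1) + h n : ℕ → ℕ) : G U) = m.1.map Nat.size
  rw [ha.2, Germ.map_coe, Germ.coe_eq]
  filter_upwards [hj, hrh] with n h1 h2
  show j * (n + 1) + h n = (a n).size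
  rw [← h1, ← h2, mul_comm]
  exact Nat.div_add_mod _ _

/-- The powers of two. -/
theorem exists_pw (n : (mod S hU).Num) : ∃ X : (mod S hU).Str, ∀ a, RepN hU n a →
    RepS hU X (fun i => 2 ^ (a i)) := by
  obtain ⟨a, ha⟩ := exists_repN hU n
  obtain ⟨X, hX⟩ := exists_str ha.1.twoPow (ha.add repN_one)
    (Eventually.of_forall fun i => by rw [Nat.size_pow])
  refine ⟨X, fun b hb => ⟨hb.1.twoPow, ?_⟩⟩
  rw [hX.2, Germ.coe_eq]
  filter_upwards [Germ.coe_eq.1 (ha.2.symm.trans hb.2)] with i hi
  show 2 ^ (a i) = 2 ^ (b i)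
  rw [hi]

section

variable {R : Type u} [Field R] [LinearOrder R] [IsStrictOrderedRing R]

omit [IsStrictOrderedRing R] in
theorem IsExp.map_zero {E : R → R} (hE : IsExp E) : E 0 = 1 := by
  have h := hE.map_add 0 0
  rw [add_zero] at h
  have h2 := hE.pos 0
  have : E 0 * 1 = E 0 * E 0 := by rw [mul_one]; exact h
  exact (mul_left_cancel₀ h2.ne' this).symm

theorem IsExp.map_nsmul {E : R → R} (hE : IsExp E) (k : ℕ) (x : R) : E (k * x) = E x ^ k := by
  induction k with
  | zero => simp [hE.map_zero]
  | succ k ih =>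
    rw [Nat.cast_succ, add_mul, one_mul, hE.map_add, ih, pow_succ]

/-- If the ring of binary integers of the structure is an integer part of an exponential field,
then its number sort is countable. -/
theorem countable_of_isRingOf (hthin : Thin U S) {E : R → R} (hE : IsExp E) {Z : Subring R}
    (hZ : IsIntegerPart Z) (h : (mod S hU).IsRingOf Z) :
    (Set.univ : Set (mod S hU).Num).Countable := by
  obtain ⟨ι, hinj, hnonneg, hsurj, hlt, hadd, hmul⟩ := h
  choose pw hpw using exists_pw (S := S) (hU := hU)
  let p : (mod S hU).Num → R := fun n => (ι (pw n) : R)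
  have pdef : ∀ n, p n = (ι (pw n) : R) := fun _ => rfl
  -- basic facts on the powers of two
  have psucc : ∀ n, p ((mod S hU).add n (mod S hU).one) = 2 * p n := by
    intro n
    obtain ⟨a, ha⟩ := exists_repN hU n
    have h1 : (mod S hU).AddS (pw n) (pw n) (pw ((mod S hU).add n (mod S hU).one)) := by
      rw [addS_iff (hpw n a ha) (hpw n a ha)]
      have h2 := hpw _ _ (ha.add repN_one)
      have he : (fun i => 2 ^ (a i + 1)) = fun i => 2 ^ (a i) + 2 ^ (a i) := by
        funext i
        rw [pow_succ]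
        ring
      rw [he] at h2
      exact h2
    rw [pdef, pdef, hadd _ _ _ h1]
    push_cast
    ring
  have padd : ∀ n m, p ((mod S hU).add n m) = p n * p m := by
    intro n m
    obtain ⟨a, ha⟩ := exists_repN hU n
    obtain ⟨b, hb⟩ := exists_repN hU m
    have h1 : (mod S hU).MulS (pw n) (pw m) (pw ((mod S hU).add n m)) := by
      apply mulS_of_rep (hpw n a ha) (hpw m b hb)
      have h2 := hpw _ _ (ha.add hb)
      have he : (fun i => 2 ^ (a i + b i)) = fun i => 2 ^ (a i) * 2 ^ (b i) := by
        funext i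
        rw [pow_add]
      rw [he] at h2
      exact h2
    rw [pdef, pdef, pdef, hmul _ _ _ h1]
    push_cast
    rfl
  have plt : ∀ n m, (mod S hU).lt n m → p n < p m := by
    intro n m hnm
    obtain ⟨a, ha⟩ := exists_repN hU n
    obtain ⟨b, hb⟩ := exists_repN hU m
    rw [lt_iff ha hb] at hnm
    have h1 : (mod S hU).ltS (pw n) (pw m) := by
      rw [ltS_iff, (hpw n a ha).2, (hpw m b hb).2, Germ.coe_lt]
      filter_upwards [hnm] with i hi
      exact Nat.pow_lt_pow_right (by norm_num) hi
    exact_mod_cast hlt _ _ h1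
  have plt' : ∀ n m, p n < p m → (mod S hU).lt n m := by
    intro n m hnm
    rcases mod_basic.B10 m n with h1 | h1
    · by_cases h2 : m = n
      · rw [h2] at hnm
        exact absurd hnm (lt_irrefl _)
      · exact absurd (plt m n ⟨h1, h2⟩) (not_lt.2 hnm.le)
    · refine ⟨h1, fun h2 => ?_⟩
      rw [h2] at hnm
      exact absurd hnm (lt_irrefl _)
  have pzero : p (mod S hU).zero = 1 := by
    have h1 := psucc (mod S hU).zero
    have h2 : p (mod S hU).zero < p ((mod S hU).add (mod S hU).zero (mod S hU).one) :=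
      plt _ _ ((lt_iff repN_zero (repN_zero.add repN_one)).2
        (Eventually.of_forall fun n => by omega))
    have h3 := padd (mod S hU).zero (mod S hU).zero
    rw [mod_basic.B3] at h3
    rw [h1] at h2
    have h4 : 0 < p (mod S hU).zero := by linarith
    have h5 : p (mod S hU).zero * 1 = p (mod S hU).zero * p (mod S hU).zero := by
      rw [mul_one]
      exact h3
    exact (mul_left_cancel₀ h4.ne' h5).symm
  have pone_le : ∀ n, 1 ≤ p n := by
    intro n
    by_cases h1 : n = (mod S hU).zero
    · rw [h1, pzero]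
    · rw [← pzero]
      exact (plt _ _ ⟨mod_basic.B9 n, fun h2 => h1 h2.symm⟩).le
  -- approximation of elements by powers of two
  have approx : ∀ r : R, 1 ≤ r → ∃ m, p m ≤ r ∧
      r < p ((mod S hU).add ((mod S hU).add m (mod S hU).one) (mod S hU).one) := by
    intro r hr
    obtain ⟨z, hz, hz1, hz2⟩ := hZ.floor r
    have hzpos : 0 < z := by linarith
    have hz3 : 1 ≤ z := hZ.discrete z hz hzpos
    obtain ⟨X, hX⟩ := hsurj ⟨z, hz⟩
    have hX1 : z = (ι X : R) := by
      rcases hX with hX | hX
      · exact congrArg Subtype.val hX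
      · exfalso
        have h1 : z = -(ι X : R) := congrArg Subtype.val hX
        have h2 : (0 : R) ≤ (ι X : R) := by exact_mod_cast hnonneg X
        linarith
    obtain ⟨x, hx⟩ := exists_repS hU X
    have hxpos : ∀ᶠ n in (U : Filter ℕ), 0 < x n := by
      by_contra hcon
      rw [← Ultrafilter.eventually_not] at hcon
      have h0 : (mod S hU).AddS X X X := by
        rw [addS_iff hx hx]
        refine ⟨hx.1.add hx.1, ?_⟩
        rw [hx.2, Germ.coe_eq]
        filter_upwards [hcon] with n hn
        have : x n = 0 := by omega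
        show x n = x n + x n
        omega
      have h1 := hadd _ _ _ h0
      have h2 : ι X = 0 := by
        have : ι X + 0 = ι X + ι X := by rw [add_zero]; exact h1
        exact (add_left_cancel this).symm
      rw [h2] at hX1
      simp at hX1
      exact hzpos.ne' hX1
    obtain ⟨m, hm⟩ := exists_num (hx.1.size.sub (Hull.const 1)) hx.len
      (Eventually.of_forall fun n => Nat.sub_le _ _)
    have hsz : ∀ᶠ n in (U : Filter ℕ), 0 < (x n).size := by
      filter_upwards [hxpos] with n hn using Nat.size_pos.2 hn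
    have h1 : p m ≤ z := by
      have h2 : ∀ᶠ n in (U : Filter ℕ), 2 ^ ((x n).size - 1) ≤ x n := by
        filter_upwards [hsz] with n hn
        exact Nat.lt_size.1 (by omega)
      have h3 : (pw m).1 ≤ X.1 := by
        rw [(hpw m _ hm).2, hx.2, Germ.coe_le]
        exact h2
      rcases lt_or_eq_of_le h3 with h3 | h3
      · rw [hX1]
        exact_mod_cast (hlt _ _ (ltS_iff.2 h3)).le
      · have h4 : pw m = X := Subtype.ext h3
        rw [hX1, pdef, h4]
    have h2 : z < p ((mod S hU).add m (mod S hU).one) := by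
      have h3 : (mod S hU).ltS X (pw ((mod S hU).add m (mod S hU).one)) := by
        rw [ltS_iff, (hpw _ _ (hm.add repN_one)).2, hx.2, Germ.coe_lt]
        filter_upwards [hsz] with n hn
        rw [Nat.sub_add_cancel (by omega)]
        exact Nat.lt_size_self _
      rw [hX1]
      exact_mod_cast hlt _ _ h3
    refine ⟨m, h1.trans hz1, ?_⟩
    rw [psucc]
    linarith
  -- the map `lam`
  have hEone : ∀ n, 2 ≤ E (p n) := by
    intro n
    rw [← hE.map_one]
    exact hE.strictMono.monotone (pone_le n)
  have hlam : ∀ n, ∃ m, p m ≤ E (p n) ∧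
      E (p n) < p ((mod S hU).add ((mod S hU).add m (mod S hU).one) (mod S hU).one) :=
    fun n => approx _ (by linarith [hEone n])
  choose lam hlam1 hlam2 using hlam
  -- numbers with the same value are close
  have hclose : ∀ n n', (lam n).1.map Nat.size = (lam n').1.map Nat.size →
      ∀ a a', RepN hU n a → RepN hU n' a' → ∀ᶠ i in (U : Filter ℕ), a' i < a i + 4 := by
    intro n n' hsize a a' ha ha'
    by_contra hcon
    rw [← Ultrafilter.eventually_not] at hcon
    obtain ⟨b, hb⟩ := exists_repN hU (lam n)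
    obtain ⟨b', hb'⟩ := exists_repN hU (lam n')
    rw [hb.2, hb'.2, Germ.map_coe, Germ.map_coe, Germ.coe_eq] at hsize
    -- `16 * p n ≤ p n'`
    have h16 : (16 : R) * p n ≤ p n' := by
      have h1 := psucc n
      have h2 := psucc ((mod S hU).add n (mod S hU).one)
      have h3 := psucc ((mod S hU).add ((mod S hU).add n (mod S hU).one) (mod S hU).one)
      have h4 := psucc ((mod S hU).add ((mod S hU).add ((mod S hU).add n (mod S hU).one)
        (mod S hU).one) (mod S hU).one)
      have h5 : (16 : R) * p n = p ((mod S hU).add ((mod S hU).add ((mod S hU).add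
          ((mod S hU).add n (mod S hU).one) (mod S hU).one) (mod S hU).one) (mod S hU).one) := by
        rw [h4, h3, h2, h1]
        ring
      rw [h5]
      by_contra hc
      have h6 := plt' _ _ (not_le.1 hc)
      rw [lt_iff ha' ((((ha.add repN_one).add repN_one).add repN_one).add repN_one)] at h6
      obtain ⟨i, hi1, hi2⟩ := (h6.and hcon).exists
      omega
    -- `E (p n) ^ 16 ≤ E (p n')`
    have hE16 : E (p n) ^ 16 ≤ E (p n') := by
      have := hE.map_nsmul 16 (p n)
      push_cast at this
      rw [← this]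
      exact hE.strictMono.monotone h16
    -- `p (8 m + 8) ≤ E (p n) ^ 16`
    have hp8 : p (lam n) ^ 8 * 2 ^ 8 ≤ E (p n) ^ 16 := by
      have h1 : p (lam n) ^ 8 ≤ E (p n) ^ 8 :=
        pow_le_pow_left₀ (by linarith [pone_le (lam n)]) (hlam1 n) 8
      have h2 : (2 : R) ^ 8 ≤ E (p n) ^ 8 := pow_le_pow_left₀ (by norm_num) (hEone n) 8
      calc p (lam n) ^ 8 * 2 ^ 8 ≤ E (p n) ^ 8 * E (p n) ^ 8 :=
            mul_le_mul h1 h2 (by positivity) (by positivity)
        _ = E (p n) ^ 16 := by rw [← pow_add]
    -- the number `8 m + 8`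
    let m2 := (mod S hU).add (lam n) (mod S hU).one
    let m4 := (mod S hU).add m2 m2
    let m8 := (mod S hU).add m4 m4
    let m16 := (mod S hU).add m8 m8
    have e1 : p m2 = 2 * p (lam n) := psucc _
    have e2 : p m4 = p m2 * p m2 := padd _ _
    have e3 : p m8 = p m4 * p m4 := padd _ _
    have e4 : p m16 = p m8 * p m8 := padd _ _
    have e5 : p m16 = p (lam n) ^ 8 * 2 ^ 8 := by
      rw [e4, e3, e2, e1]
      ring
    have hfin : p m16 < p ((mod S hU).add ((mod S hU).add (lam n') (mod S hU).one)
        (mod S hU).one) := by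
      rw [e5]
      exact lt_of_le_of_lt (hp8.trans hE16) (hlam2 n')
    have hfin2 := plt' _ _ hfin
    have hm2 := hb.add (repN_one (hU := hU) (S := S))
    have hm4 := hm2.add hm2
    have hm8 := hm4.add hm4
    have hm16 := hm8.add hm8
    rw [lt_iff hm16 ((hb'.add repN_one).add repN_one)] at hfin2
    obtain ⟨i, hi1, hi2⟩ := (hfin2.and hsize).exists
    have hi3 : (b i).size = (b' i).size := hi2
    have hi4 : b' i ≤ 2 * b i := by
      by_cases h0 : (b i).size = 0
      · have : b' i = 0 := Nat.size_eq_zero.1 (hi3 ▸ h0)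
        omega
      · have h1 : 2 ^ ((b i).size - 1) ≤ b i := Nat.lt_size.1 (by omega)
        have h2 : b' i < 2 ^ (b' i).size := Nat.lt_size_self _
        rw [← hi3] at h2
        have h3 : 2 ^ (b i).size = 2 * 2 ^ ((b i).size - 1) := by
          rw [← pow_succ', Nat.sub_add_cancel (by omega)]
        omega
    omega
  -- conclusion
  have hrange := countable_range_size (hU := hU) hthin
  have hcover : (Set.univ : Set (mod S hU).Num) ⊆
      ⋃ g ∈ Set.range (fun m : (mod S hU).Num => m.1.map Nat.size),
        {n : (mod S hU).Num | (lam n).1.map Nat.size = g} := by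
    intro n _
    simp only [Set.mem_iUnion]
    exact ⟨_, ⟨lam n, rfl⟩, rfl⟩
  refine (hrange.biUnion fun g _ => ?_).mono hcover
  rcases Set.eq_empty_or_nonempty {n : (mod S hU).Num | (lam n).1.map Nat.size = g} with h0 | h0
  · rw [h0]
    exact Set.countable_empty
  · obtain ⟨n, hn⟩ := h0
    obtain ⟨a, ha⟩ := exists_repN hU n
    have hsub : {n : (mod S hU).Num | (lam n).1.map Nat.size = g} ⊆
        ⋃ k : ℤ, {m : (mod S hU).Num | ∃ b, RepN hU m b ∧
          ∀ᶠ i in (U : Filter ℕ), (b i : ℤ) = a i + k} := by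
      intro m hm
      obtain ⟨b, hb⟩ := exists_repN hU m
      have h1 := hclose n m (hn.trans hm.symm) a b ha hb
      have h2 := hclose m n (hm.trans hn.symm) b a hb ha
      obtain ⟨j, hj⟩ := exists_const (U := U) (q := fun i => b i + 4 - a i) (k := 8) (by
        filter_upwards [h1, h2] with i h1 h2
        omega)
      refine Set.mem_iUnion.2 ⟨(j : ℤ) - 4, b, hb, ?_⟩
      filter_upwards [hj, h2] with i h3 h4
      omega
    refine Set.Countable.mono hsub (Set.countable_iUnion fun k => ?_)
    refine Set.Subsingleton.countable ?_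
    rintro m ⟨b, hb, hb'⟩ m' ⟨c, hc, hc'⟩
    rw [eqN_iff hb hc]
    filter_upwards [hb', hc'] with i h1 h2
    omega

end

/-- The main theorem. -/
theorem main : ∃ M : TwoSorted, M.VTC0 ∧ (∀ X Y, ∃ Z, M.MulS X Y Z) ∧ Uncountable M.Num ∧
    Uncountable M.Str ∧
    (∃ (Z : Type) (_ : CommRing Z) (_ : LinearOrder Z) (_ : IsStrictOrderedRing Z),
      M.IsRingOf Z) ∧
    ∀ (R : Type u) [Field R] [LinearOrder R] [IsStrictOrderedRing R] (E : R → R)
      (Z : Subring R), IsExp E → IsIntegerPart Z → ¬ M.IsRingOf Z := by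
  have hU : ((hyperfilter ℕ : Ultrafilter ℕ) : Filter ℕ) ≤ atTop := Nat.hyperfilter_le_atTop
  obtain ⟨S, hS1, hS2, hthin, hunc⟩ := exists_thin_uncountable (hyperfilter ℕ) hU
  have hnum : ¬ (Set.univ : Set (mod S hU).Num).Countable := by
    intro hc
    apply hunc
    have h1 : ∀ s : S, (s.1 : G (hyperfilter ℕ)) ∈ NumSet (hyperfilter ℕ) S := fun s =>
      mem_numSet (Hull.mem s.2) (k := 1) (Eventually.of_forall fun n => by
        rw [mul_one]
        exact hS1 s.1 s.2 n)
    have h2 : Function.Injective (fun s : S => (⟨(s.1 : G (hyperfilter ℕ)), h1 s⟩ :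
        (mod S hU).Num)) := by
      intro s t hst
      have h3 : (s.1 : G (hyperfilter ℕ)) = (t.1 : G (hyperfilter ℕ)) := congrArg Subtype.val hst
      rw [Germ.coe_eq] at h3
      exact Subtype.ext (hS2 s.1 s.2 t.1 t.2 h3)
    have : Countable (mod S hU).Num := Set.countable_univ_iff.1 hc
    exact Set.countable_coe_iff.1 h2.countable
  have hnum' : Uncountable (mod S hU).Num := by
    rw [← not_countable_iff]
    intro h
    exact hnum (Set.countable_univ_iff.2 h)
  refine ⟨mod S hU, mod_vtc0, mod_mulTotal, hnum', ?_, ?_, ?_⟩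
  · rw [← not_countable_iff]
    intro h
    rw [← not_countable_iff] at hnum'
    apply hnum'
    choose pw hpw using exists_pw (S := S) (hU := hU)
    refine Function.Injective.countable (f := pw) ?_
    intro n m hnm
    obtain ⟨a, ha⟩ := exists_repN hU n
    obtain ⟨b, hb⟩ := exists_repN hU m
    rw [eqN_iff ha hb]
    filter_upwards [(eqS_iff (hpw n a ha) (hpw m b hb)).1 hnm] with i hi
    exact Nat.pow_right_injective le_rfl hi
  · exact ⟨intSubring S hU, inferInstance, inferInstance, inferInstance, isRingOf_intSubring⟩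
  · intro R _ _ _ E Z hE hZ h
    exact hnum (countable_of_isRingOf hthin hE hZ h)

end Pool.Agent.H673.VTC
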