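import Pool.Agent.H673.VTC.Code

/-!
# Hulls of sets of sequences, and an uncountable set of sequences with few small values
-/

set_option autoImplicit false

namespace Pool.Agent.H673.VTC

open Finset Filter

/-- The closure of the set `S` of sequences together with the identity sequence. -/
inductive Hull (S : Set (ℕ → ℕ)) : (ℕ → ℕ) → Prop
  | mem {s : ℕ → ℕ} (h : s ∈ S) : Hull S s
  | id : Hull S (fun n => n)
  | pair {a b : ℕ → ℕ} (ha : Hull S a) (hb : Hull S b) : Hull S (fun n => Nat.pair (a n) (b n))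
  | app (c : Code) {a : ℕ → ℕ} (ha : Hull S a) : Hull S (fun n => c.eval (a n))

theorem Hull.mono {S T : Set (ℕ → ℕ)} (h : S ⊆ T) {a : ℕ → ℕ} (ha : Hull S a) : Hull T a := by
  induction ha with
  | mem hs => exact .mem (h hs)
  | id => exact .id
  | pair _ _ iha ihb => exact .pair iha ihb
  | app c _ ih => exact .app c ih

/-- The stages of the construction of the hull. -/
def hullStage (S : Set (ℕ → ℕ)) : ℕ → Set (ℕ → ℕ)
  | 0 => S ∪ {fun n => n}
  | k + 1 => hullStage S k ∪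
      Set.image2 (fun a b n => Nat.pair (a n) (b n)) (hullStage S k) (hullStage S k) ∪
      Set.image2 (fun (c : Code) a n => c.eval (a n)) Set.univ (hullStage S k)

theorem hullStage_mono (S : Set (ℕ → ℕ)) : Monotone (hullStage S) :=
  monotone_nat_of_le_succ fun _ _ hx => Or.inl (Or.inl hx)

theorem hullStage_countable {S : Set (ℕ → ℕ)} (hS : S.Countable) (k : ℕ) :
    (hullStage S k).Countable := by
  induction k with
  | zero => exact hS.union (Set.countable_singleton _)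
  | succ k ih =>
    exact (ih.union (ih.image2 ih _)).union ((Set.to_countable _).image2 ih _)

theorem Hull.mem_stage {S : Set (ℕ → ℕ)} {a : ℕ → ℕ} (ha : Hull S a) : ∃ k, a ∈ hullStage S k := by
  induction ha with
  | mem hs => exact ⟨0, Or.inl hs⟩
  | id => exact ⟨0, Or.inr rfl⟩
  | pair _ _ iha ihb =>
    obtain ⟨k, hk⟩ := iha
    obtain ⟨l, hl⟩ := ihb
    exact ⟨max k l + 1, Or.inl (Or.inr ⟨_, hullStage_mono S (le_max_left _ _) hk, _,
      hullStage_mono S (le_max_right _ _) hl, rfl⟩)⟩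
  | app c _ ih =>
    obtain ⟨k, hk⟩ := ih
    exact ⟨k + 1, Or.inr ⟨c, Set.mem_univ _, _, hk, rfl⟩⟩

theorem hull_countable {S : Set (ℕ → ℕ)} (hS : S.Countable) : {a | Hull S a}.Countable :=
  (Set.countable_iUnion fun k => hullStage_countable hS k).mono fun _ ha =>
    Set.mem_iUnion.2 ha.mem_stage

theorem Hull.const {S : Set (ℕ → ℕ)} (k : ℕ) : Hull S (fun _ => k) := Hull.app (.const k) Hull.id

/-- The elements of the hull of `S ∪ {x}`. -/
theorem hull_insert {S : Set (ℕ → ℕ)} {x g : ℕ → ℕ} (hg : Hull (insert x S) g) :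
    ∃ (c : Code) (a : ℕ → ℕ), Hull S a ∧ g = fun n => c.eval (Nat.pair (a n) (x n)) := by
  induction hg with
  | @mem s hs =>
    rcases hs with rfl | hs
    · exact ⟨.base 1, _, .id, by funext n; simp [Code.eval, baseFn]⟩
    · exact ⟨.base 0, s, .mem hs, by funext n; simp [Code.eval, baseFn]⟩
  | id => exact ⟨.base 0, _, .id, by funext n; simp [Code.eval, baseFn]⟩
  | pair _ _ iha ihb =>
    obtain ⟨c, a, ha, rfl⟩ := iha
    obtain ⟨d, b, hb, rfl⟩ := ihb
    refine ⟨.pair (.comp c (.pair (.comp (.base 0) (.base 0)) (.base 1)))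
      (.comp d (.pair (.comp (.base 1) (.base 0)) (.base 1))), _, .pair ha hb, ?_⟩
    funext n
    simp [Code.eval, baseFn]
  | app e _ ih =>
    obtain ⟨c, a, ha, rfl⟩ := ih
    exact ⟨.comp e c, a, ha, by funext n; simp [Code.eval]⟩

/-- The sequence of codes of the shrinking sets `D_i(n)`. -/
noncomputable def dSeq (F : ℕ → Code × (ℕ → ℕ)) : ℕ → ℕ → ℕ
  | 0 => fun n => 2 ^ (2 ^ n) - 1
  | i + 1 => fun n => refine' (F i).1.eval (dSeq F i n) n ((F i).2 n)

/-- The elements of the set `D_i(n)`. -/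
noncomputable def dSet (F : ℕ → Code × (ℕ → ℕ)) (i n : ℕ) : Finset ℕ :=
  (range (2 ^ n)).filter (fun z => (dSeq F i n).testBit z = true)

theorem dSet_zero (F : ℕ → Code × (ℕ → ℕ)) (n : ℕ) : dSet F 0 n = range (2 ^ n) := by
  ext z
  simp only [dSet, dSeq, mem_filter, mem_range, Nat.testBit_two_pow_sub_one]
  simp

theorem dSet_succ (F : ℕ → Code × (ℕ → ℕ)) (i n : ℕ) : dSet F (i + 1) n =
    cls (F i).1.eval (dSeq F i n) n ((F i).2 n)
      (mode (F i).1.eval (dSeq F i n) n ((F i).2 n)) := by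
  ext z
  simp only [dSet, dSeq, refine', cls, mem_filter, mem_range, testBit_bitsOf]
  tauto

theorem dSet_succ_subset (F : ℕ → Code × (ℕ → ℕ)) (i n : ℕ) : dSet F (i + 1) n ⊆ dSet F i n := by
  intro z hz
  rw [dSet_succ] at hz
  simp only [cls, mem_filter, mem_range] at hz
  simp only [dSet, mem_filter, mem_range]
  exact ⟨hz.1, hz.2.1⟩

theorem dSet_anti (F : ℕ → Code × (ℕ → ℕ)) (n : ℕ) : Antitone (fun i => dSet F i n) :=
  antitone_nat_of_succ_le fun i => dSet_succ_subset F i n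

theorem card_dSet_le (F : ℕ → Code × (ℕ → ℕ)) (i n : ℕ) :
    (dSet F i n).card ≤ (dSet F (i + 1) n).card * (n + 2) := by
  have hmaps : ∀ z ∈ dSet F i n, valFn (F i).1.eval n ((F i).2 n) z ∈ range (n + 2) := by
    intro z _
    simp only [mem_range, valFn]
    omega
  rw [card_eq_sum_card_fiberwise hmaps]
  calc _ ≤ ∑ _c ∈ range (n + 2), (dSet F (i + 1) n).card := by
        apply sum_le_sum
        intro c hc
        rw [dSet_succ]
        have h := (mode_spec (F i).1.eval (dSeq F i n) n ((F i).2 n)).2 c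
          (by simp only [mem_range] at hc; omega)
        refine le_trans (card_le_card ?_) h
        intro z hz
        simp only [dSet, cls, mem_filter, mem_range] at hz ⊢
        exact ⟨hz.1.1, hz.1.2, hz.2⟩
    _ = _ := by simp [mul_comm]

theorem two_pow_le_card_dSet (F : ℕ → Code × (ℕ → ℕ)) (i n : ℕ) :
    2 ^ n ≤ (dSet F i n).card * (n + 2) ^ i := by
  induction i with
  | zero => simp [dSet_zero]
  | succ i ih =>
    calc 2 ^ n ≤ _ := ih
      _ ≤ ((dSet F (i + 1) n).card * (n + 2)) * (n + 2) ^ i :=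
        Nat.mul_le_mul_right _ (card_dSet_le F i n)
      _ = _ := by ring

theorem hull_dSeq {S : Set (ℕ → ℕ)} (F : ℕ → Code × (ℕ → ℕ)) (hF : ∀ i, Hull S (F i).2) (i : ℕ) :
    Hull S (dSeq F i) := by
  induction i with
  | zero => exact Hull.app (.base 15) Hull.id
  | succ i ih =>
    have h := Hull.app (.refC (F i).1) (Hull.pair ih (Hull.pair Hull.id (hF i)))
    simpa [Code.eval, dSeq] using h

theorem hull_mode {S : Set (ℕ → ℕ)} (F : ℕ → Code × (ℕ → ℕ)) (hF : ∀ i, Hull S (F i).2) (i : ℕ) :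
    Hull S (fun n => mode (F i).1.eval (dSeq F i n) n ((F i).2 n)) := by
  have h := Hull.app (.modeC (F i).1) (Hull.pair (hull_dSeq F hF i) (Hull.pair Hull.id (hF i)))
  simpa [Code.eval] using h

theorem eventually_pow_lt (j : ℕ) : ∀ᶠ n : ℕ in atTop, (j + 1) * (n + 2) ^ j < 2 ^ n := by
  have h1 : Tendsto (fun n : ℕ => (n : ℝ) ^ j / (2 : ℝ) ^ n) atTop (nhds 0) :=
    tendsto_pow_const_div_const_pow_of_one_lt j (by norm_num)
  have h2 : Tendsto (fun n : ℕ => ((n + 2 : ℕ) : ℝ) ^ j / (2 : ℝ) ^ (n + 2)) atTop (nhds 0) :=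
    h1.comp (tendsto_add_atTop_nat 2)
  have h3 : ∀ᶠ n : ℕ in atTop, ((n + 2 : ℕ) : ℝ) ^ j / (2 : ℝ) ^ (n + 2) <
      1 / (4 * ((j : ℝ) + 1)) :=
    h2.eventually (gt_mem_nhds (by positivity))
  filter_upwards [h3] with n hn
  rw [div_lt_div_iff₀ (by positivity) (by positivity)] at hn
  have h4 : ((j + 1) * (n + 2) ^ j : ℕ) < ((2 ^ n : ℕ) : ℝ) := by
    push_cast at hn ⊢
    have : (2 : ℝ) ^ (n + 2) = 2 ^ n * 4 := by ring
    rw [this] at hn
    nlinarith
  exact_mod_cast h4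

open scoped Classical in
/-- The stage used for the index `n`. -/
noncomputable def stageOf (n : ℕ) : ℕ :=
  Nat.findGreatest (fun i => (i + 1) * (n + 2) ^ i < 2 ^ n) n

theorem stageOf_spec {n : ℕ} (hn : 1 ≤ n) : (stageOf n + 1) * (n + 2) ^ (stageOf n) < 2 ^ n := by
  classical
  have h0 : (0 + 1) * (n + 2) ^ 0 < 2 ^ n := by
    simpa using Nat.one_lt_two_pow (by omega)
  exact Nat.findGreatest_spec (P := fun i => (i + 1) * (n + 2) ^ i < 2 ^ n) (Nat.zero_le n) h0

theorem eventually_le_stageOf (j : ℕ) : ∀ᶠ n : ℕ in atTop, j ≤ stageOf n := by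
  filter_upwards [eventually_pow_lt j, eventually_ge_atTop j] with n hn hjn
  exact Nat.le_findGreatest hjn hn

/-- Choice of a generic sequence. -/
theorem exists_generic (F : ℕ → Code × (ℕ → ℕ)) (s : ℕ → ℕ → ℕ) :
    ∃ x : ℕ → ℕ, (∀ n, x n < 2 ^ n) ∧ (∀ i, ∀ᶠ n in atTop, x n ∈ dSet F i n) ∧
      ∀ i, ∀ᶠ n in atTop, x n ≠ s i n := by
  have key : ∀ n, ∃ x, x < 2 ^ n ∧ (1 ≤ n → x ∈ dSet F (stageOf n) n ∧
      ∀ i ≤ stageOf n, x ≠ s i n) := by
    intro n
    rcases Nat.eq_zero_or_pos n with rfl | hn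
    · exact ⟨0, by simp, by omega⟩
    · have h1 := stageOf_spec hn
      have h2 := two_pow_le_card_dSet F (stageOf n) n
      have h3 : stageOf n + 1 < (dSet F (stageOf n) n).card := by
        by_contra h
        have := Nat.mul_le_mul_right ((n + 2) ^ stageOf n) (not_lt.1 h)
        omega
      have h4 : ((range (stageOf n + 1)).image (fun i => s i n)).card <
          (dSet F (stageOf n) n).card :=
        lt_of_le_of_lt (card_image_le.trans (by simp)) h3
      obtain ⟨x, hx, hx'⟩ := exists_mem_notMem_of_card_lt_card h4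
      refine ⟨x, ?_, fun _ => ⟨hx, fun i hi hxi => hx' ?_⟩⟩
      · simp only [dSet, mem_filter, mem_range] at hx
        exact hx.1
      · exact mem_image.2 ⟨i, mem_range.2 (by omega), hxi.symm⟩
  choose x hx1 hx2 using key
  refine ⟨x, hx1, fun i => ?_, fun i => ?_⟩
  · filter_upwards [eventually_le_stageOf i, eventually_ge_atTop 1] with n hn h1
    exact dSet_anti F n hn (hx2 n h1).1
  · filter_upwards [eventually_le_stageOf i, eventually_ge_atTop 1] with n hn h1
    exact (hx2 n h1).2 i hn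

/-- The condition that the hull of `S` has no small elements besides those of the hull of `∅`. -/
def Thin (U : Ultrafilter ℕ) (S : Set (ℕ → ℕ)) : Prop :=
  ∀ g, Hull S g → (∀ᶠ n in (U : Filter ℕ), g n ≤ n) →
    ∃ h, Hull ∅ h ∧ ∀ᶠ n in (U : Filter ℕ), g n = h n

/-- The one-step lemma. -/
theorem exists_extend {U : Ultrafilter ℕ} (hU : (U : Filter ℕ) ≤ atTop) {S : Set (ℕ → ℕ)}
    (hS : S.Countable) (hthin : Thin U S) :
    ∃ x : ℕ → ℕ, (∀ n, x n < 2 ^ n) ∧ (∀ s ∈ S, ∀ᶠ n in (U : Filter ℕ), x n ≠ s n) ∧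
      Thin U (insert x S) := by
  obtain ⟨F, hF⟩ : ∃ F : ℕ → Code × (ℕ → ℕ), Set.range F = Set.univ ×ˢ {a | Hull S a} :=
    Set.Countable.exists_eq_range ((Set.to_countable _).prod (hull_countable hS))
      ⟨(.const 0, fun n => n), Set.mem_univ _, Hull.id⟩ |>.imp fun F h => h.symm
  have hF2 : ∀ i, Hull S (F i).2 := fun i => by
    have : F i ∈ Set.range F := ⟨i, rfl⟩
    rw [hF] at this
    exact this.2
  obtain ⟨s, hs⟩ : ∃ s : ℕ → ℕ → ℕ, S ⊆ Set.range s := by
    rcases S.eq_empty_or_nonempty with rfl | hne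
    · exact ⟨fun _ _ => 0, Set.empty_subset _⟩
    · obtain ⟨s, hs⟩ := Set.Countable.exists_eq_range hS hne
      exact ⟨s, hs.le⟩
  obtain ⟨x, hx1, hx2, hx3⟩ := exists_generic F s
  refine ⟨x, hx1, ?_, ?_⟩
  · intro t ht
    obtain ⟨i, rfl⟩ := hs ht
    exact hU (hx3 i)
  · intro g hg hgn
    obtain ⟨c, a, ha, rfl⟩ := hull_insert hg
    obtain ⟨i, hi⟩ : ∃ i, F i = (c, a) := by
      have : (c, a) ∈ Set.range F := by
        rw [hF]
        exact ⟨Set.mem_univ _, ha⟩
      exact this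
    have h1 : ∀ᶠ n in (U : Filter ℕ), c.eval (Nat.pair (a n) (x n)) =
        mode (F i).1.eval (dSeq F i n) n ((F i).2 n) := by
      filter_upwards [hU (hx2 (i + 1)), hgn] with n hn hgn'
      have hn' : x n ∈ dSet F (i + 1) n := hn
      rw [dSet_succ, cls, Finset.mem_filter] at hn'
      have h2 := hn'.2.2
      simp only [valFn] at h2
      rw [hi] at h2 ⊢
      simp only at h2 ⊢
      rw [← h2]
      omega
    obtain ⟨h, hh, hh'⟩ := hthin _ (hull_mode F hF2 i) (by
      filter_upwards [h1, hgn] with n hn hn'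
      rw [← hn]
      exact hn')
    exact ⟨h, hh, by filter_upwards [h1, hh'] with n h1 h2 using h1.trans h2⟩

theorem hull_sUnion {c : Set (Set (ℕ → ℕ))} (hc : IsChain (· ⊆ ·) c) (hne : c.Nonempty)
    {a : ℕ → ℕ} (ha : Hull (⋃₀ c) a) : ∃ S ∈ c, Hull S a := by
  induction ha with
  | mem hs =>
    obtain ⟨S, hS, hsS⟩ := hs
    exact ⟨S, hS, .mem hsS⟩
  | id =>
    obtain ⟨S, hS⟩ := hne
    exact ⟨S, hS, .id⟩
  | pair _ _ iha ihb =>
    obtain ⟨S, hS, ha⟩ := iha
    obtain ⟨T, hT, hb⟩ := ihb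
    rcases hc.total hS hT with h | h
    · exact ⟨T, hT, .pair (ha.mono h) hb⟩
    · exact ⟨S, hS, .pair ha (hb.mono h)⟩
  | app c _ ih =>
    obtain ⟨S, hS, ha⟩ := ih
    exact ⟨S, hS, .app c ha⟩

/-- There is an uncountable thin set of sequences below `2 ^ n`. -/
theorem exists_thin_uncountable (U : Ultrafilter ℕ) (hU : (U : Filter ℕ) ≤ atTop) :
    ∃ S : Set (ℕ → ℕ), (∀ s ∈ S, ∀ n, s n < 2 ^ n) ∧
      (∀ s ∈ S, ∀ t ∈ S, (∀ᶠ n in (U : Filter ℕ), s n = t n) → s = t) ∧ Thin U S ∧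
      ¬ S.Countable := by
  let P : Set (Set (ℕ → ℕ)) := {S | (∀ s ∈ S, ∀ n, s n < 2 ^ n) ∧
      (∀ s ∈ S, ∀ t ∈ S, (∀ᶠ n in (U : Filter ℕ), s n = t n) → s = t) ∧ Thin U S}
  have hempty : (∅ : Set (ℕ → ℕ)) ∈ P :=
    ⟨by simp, by simp, fun g hg _ => ⟨g, hg, Eventually.of_forall fun _ => rfl⟩⟩
  obtain ⟨S, hS⟩ := zorn_subset P (by
    intro c hcP hc
    rcases c.eq_empty_or_nonempty with rfl | hne
    · exact ⟨∅, hempty, by simp⟩
    · refine ⟨⋃₀ c, ⟨?_, ?_, ?_⟩, fun s hs => Set.subset_sUnion_of_mem hs⟩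
      · rintro s ⟨T, hT, hs⟩
        exact (hcP hT).1 s hs
      · rintro s ⟨T, hT, hs⟩ t ⟨T', hT', ht⟩ h
        rcases hc.total hT hT' with h' | h'
        · exact (hcP hT').2.1 s (h' hs) t ht h
        · exact (hcP hT).2.1 s hs t (h' ht) h
      · intro g hg hgn
        obtain ⟨T, hT, hg'⟩ := hull_sUnion hc hne hg
        exact (hcP hT).2.2 g hg' hgn)
  refine ⟨S, hS.prop.1, hS.prop.2.1, hS.prop.2.2, fun hcount => ?_⟩
  obtain ⟨x, hx1, hx2, hx3⟩ := exists_extend hU hcount hS.prop.2.2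
  have hmem : insert x S ∈ P := by
    refine ⟨?_, ?_, hx3⟩
    · rintro s (rfl | hs)
      · exact hx1
      · exact hS.prop.1 s hs
    · rintro s (rfl | hs) t (rfl | ht) h
      · rfl
      · obtain ⟨n, hn1, hn2⟩ := (h.and (hx2 t ht)).exists
        exact absurd hn1 hn2
      · obtain ⟨n, hn1, hn2⟩ := (h.and (hx2 s hs)).exists
        exact absurd hn1.symm hn2
      · exact hS.prop.2.1 s hs t ht h
  have hle : insert x S ⊆ S := hS.le_of_ge hmem (Set.subset_insert x S)
  have hxS : x ∈ S := hle (Set.mem_insert x S)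
  obtain ⟨n, hn⟩ := (hx2 x hxS).exists
  exact hn rfl

end Pool.Agent.H673.VTC
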