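import Pool.Agent.H673.VTC.Model

/-!
# The structure of a hull is a model of `VTC⁰`
-/

set_option autoImplicit false

namespace Pool.Agent.H673.VTC

open Filter TwoSorted

variable {U : Ultrafilter ℕ} {S : Set (ℕ → ℕ)} {hU : (U : Filter ℕ) ≤ atTop}

theorem testBit_of_size_eq {x y : ℕ} (h : y + 1 = x.size) : x.testBit y = true := by
  by_contra hc
  have h1 : x < 2 ^ (y + 1) := by rw [h]; exact Nat.lt_size_self x
  have h2 : x < 2 ^ y := by
    apply Nat.lt_pow_two_of_testBit
    intro i hi
    rcases Nat.eq_or_lt_of_le hi with rfl | hi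
    · simpa using hc
    · exact Nat.testBit_lt_two_pow (lt_of_lt_of_le h1 (Nat.pow_le_pow_right (by norm_num) hi))
  have h3 := Nat.size_le.2 h2
  omega

theorem lt_size_of_testBit {x y : ℕ} (h : x.testBit y = true) : y < x.size := by
  by_contra hc
  have h1 : x < 2 ^ y := Nat.size_le.1 (not_lt.1 hc)
  rw [Nat.testBit_lt_two_pow h1] at h
  exact Bool.false_ne_true h

theorem lt_size_of_mem {x : (mod S hU).Num} {X : (mod S hU).Str} (h : (mod S hU).mem x X) :
    (mod S hU).lt x ((mod S hU).len X) := by
  obtain ⟨a, ha⟩ := exists_repN hU x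
  obtain ⟨b, hb⟩ := exists_repS hU X
  rw [mem_iff ha hb] at h
  rw [lt_iff ha hb.len]
  filter_upwards [h] with n hn using lt_size_of_testBit hn

theorem mod_basic : (mod S hU).Basic2 where
  B1 x := by
    obtain ⟨a, ha⟩ := exists_repN hU x
    rw [Ne, eqN_iff (ha.add repN_one) repN_zero]
    intro h
    obtain ⟨n, hn⟩ := h.exists
    omega
  B2 x y := by
    obtain ⟨a, ha⟩ := exists_repN hU x
    obtain ⟨b, hb⟩ := exists_repN hU y
    rw [eqN_iff (ha.add repN_one) (hb.add repN_one), eqN_iff ha hb]
    intro h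
    filter_upwards [h] with n hn
    omega
  B3 x := by
    obtain ⟨a, ha⟩ := exists_repN hU x
    rw [eqN_iff (ha.add repN_zero) ha]
    exact Eventually.of_forall fun n => by omega
  B4 x y := by
    obtain ⟨a, ha⟩ := exists_repN hU x
    obtain ⟨b, hb⟩ := exists_repN hU y
    rw [eqN_iff (ha.add (hb.add repN_one)) ((ha.add hb).add repN_one)]
    exact Eventually.of_forall fun n => by ring
  B5 x := by
    obtain ⟨a, ha⟩ := exists_repN hU x
    rw [eqN_iff (ha.mul repN_zero) repN_zero]
    exact Eventually.of_forall fun n => by ring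
  B6 x y := by
    obtain ⟨a, ha⟩ := exists_repN hU x
    obtain ⟨b, hb⟩ := exists_repN hU y
    rw [eqN_iff (ha.mul (hb.add repN_one)) ((ha.mul hb).add ha)]
    exact Eventually.of_forall fun n => by ring
  B7 x y := by
    obtain ⟨a, ha⟩ := exists_repN hU x
    obtain ⟨b, hb⟩ := exists_repN hU y
    rw [le_iff ha hb, le_iff hb ha, eqN_iff ha hb]
    intro h1 h2
    filter_upwards [h1, h2] with n h1 h2
    omega
  B8 x y := by
    obtain ⟨a, ha⟩ := exists_repN hU x
    obtain ⟨b, hb⟩ := exists_repN hU y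
    rw [le_iff ha (ha.add hb)]
    exact Eventually.of_forall fun n => by omega
  B9 x := by
    obtain ⟨a, ha⟩ := exists_repN hU x
    rw [le_iff repN_zero ha]
    exact Eventually.of_forall fun n => by omega
  B10 x y := by
    obtain ⟨a, ha⟩ := exists_repN hU x
    obtain ⟨b, hb⟩ := exists_repN hU y
    rw [le_iff ha hb, le_iff hb ha, ← Ultrafilter.eventually_or]
    exact Eventually.of_forall fun n => le_total _ _
  B11 x y := by
    obtain ⟨a, ha⟩ := exists_repN hU x
    obtain ⟨b, hb⟩ := exists_repN hU y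
    rw [le_iff ha hb, lt_iff ha (hb.add repN_one)]
    refine eventually_congr (Eventually.of_forall fun n => ?_)
    omega
  B12 x hx := by
    obtain ⟨a, ha⟩ := exists_repN hU x
    rw [Ne, eqN_iff ha repN_zero, ← Ultrafilter.eventually_not] at hx
    have h1 : Hull S (fun n => a n - 1) := ha.1.sub (Hull.const 1)
    obtain ⟨y, hy⟩ := exists_num h1 ha (Eventually.of_forall fun n => by omega)
    refine ⟨y, (le_iff hy ha).2 (Eventually.of_forall fun n => by omega),
      (eqN_iff (hy.add repN_one) ha).2 ?_⟩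
    filter_upwards [hx] with n hn
    omega
  L1 X y h := lt_size_of_mem h
  L2 X y := by
    obtain ⟨a, ha⟩ := exists_repN hU y
    obtain ⟨b, hb⟩ := exists_repS hU X
    rw [eqN_iff (ha.add repN_one) hb.len, mem_iff ha hb]
    intro h
    filter_upwards [h] with n hn using testBit_of_size_eq hn
  SE X Y h1 h2 := by
    obtain ⟨a, ha⟩ := exists_repS hU X
    obtain ⟨b, hb⟩ := exists_repS hU Y
    -- the formula `∀ i ≤ |X|, (i ∈ X ↔ i ∈ Y)`
    let φ : Fm 2 0 := .allLe (.len 0)
      (.and (.not (.and (.mem (.var 0) 0) (.not (.mem (.var 0) 1))))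
        (.not (.and (.mem (.var 0) 1) (.not (.mem (.var 0) 0)))))
    have h3 : (mod S hU).Sat ![X, Y] φ ![] := by
      intro i _
      have h4 : (mod S hU).mem i X ↔ (mod S hU).mem i Y := by
        by_cases hi : (mod S hU).lt i ((mod S hU).len X)
        · exact h2 i hi
        · exact iff_of_false (fun h => hi (lt_size_of_mem h))
            (fun h => hi (h1 ▸ lt_size_of_mem h))
      show (¬ (_ ∧ ¬ _)) ∧ (¬ (_ ∧ ¬ _))
      exact ⟨fun h => h.2 (h4.1 h.1), fun h => h.2 (h4.2 h.1)⟩
    rw [los (v' := ![]) (V' := ![a, b]) φ (by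
      intro j
      fin_cases j
      · exact ha
      · exact hb) (by intro i; exact i.elim0)] at h3
    rw [eqS_iff ha hb]
    have h5 := (eqN_iff ha.len hb.len).1 h1
    filter_upwards [h3, h5] with n hn hs
    apply Nat.eq_of_testBit_eq
    intro i
    by_cases hi : i ≤ (a n).size
    · have h6 := hn i hi
      have h7 : (¬ ((a n).testBit i = true ∧ ¬ (b n).testBit i = true)) ∧
        (¬ ((b n).testBit i = true ∧ ¬ (a n).testBit i = true)) := h6
      cases hA : (a n).testBit i <;> cases hB : (b n).testBit i <;> simp_all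
    · have h6 : ¬ (a n).testBit i = true := fun h => hi (lt_size_of_testBit h).le
      have h7 : ¬ (b n).testBit i = true := fun h => hi (hs ▸ (lt_size_of_testBit h).le)
      simp only [Bool.not_eq_true] at h6 h7
      rw [h6, h7]

theorem mod_comp : (mod S hU).SigmaB0Comp := by
  intro n s φ v V y
  choose V' hV using fun j => exists_repS hU (V j)
  choose v' hv using fun i => exists_repN hU (v i)
  obtain ⟨b, hb⟩ := exists_repN hU y
  obtain ⟨c, hc⟩ := exists_code_fm φ
  have hX' : Hull S (fun m => (Code.compr c).eval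
      (Nat.pair (b m) (enc (fun j => V' j m) n (fun i => v' i m)))) :=
    Hull.app₂ _ hb.1 (hull_enc (fun j => (hV j).1) (fun i => (hv i).1))
  have hsize : ∀ m, ((Code.compr c).eval
      (Nat.pair (b m) (enc (fun j => V' j m) n (fun i => v' i m)))).size ≤ b m := by
    intro m
    simp only [Code.eval, Nat.unpair_pair]
    exact size_bitsOf_le _ _
  obtain ⟨X, hX⟩ := exists_str hX' hb (Eventually.of_forall hsize)
  refine ⟨X, (le_iff hX.len hb).2 (Eventually.of_forall hsize), fun z hz => ?_⟩
  obtain ⟨z', hz'⟩ := exists_repN hU z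
  rw [lt_iff hz' hb] at hz
  rw [mem_iff hz' hX, los φ (v' := Matrix.vecCons z' v') hV (by
    intro i
    refine Fin.cases ?_ (fun i => ?_) i
    · exact hz'
    · exact hv i)]
  refine eventually_congr ?_
  filter_upwards [hz] with m hm
  have he : (fun i => Matrix.vecCons (α := ℕ → ℕ) z' v' i m) =
      (Matrix.vecCons (z' m) fun i => v' i m) := by
    funext i
    refine Fin.cases ?_ (fun i => ?_) i <;> simp
  rw [he, ← hc, enc_vecCons]
  simp only [Code.eval, Nat.unpair_pair, testBit_bitsOf]
  exact and_iff_right hm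

theorem numTable_testBit {x z y : ℕ} (hz : z ≤ x.size) :
    (numTable x).testBit (prN z y) = true ↔ y = cnt x z := by
  unfold numTable
  rw [testBit_bitsOf]
  constructor
  · rintro ⟨-, z', -, h⟩
    obtain ⟨rfl, h⟩ := prN_inj h
    exact h
  · rintro rfl
    exact ⟨prN_lt hz ((cnt_le x z).trans hz), z, hz, rfl⟩

theorem hull_cnt {a b : ℕ → ℕ} (ha : Hull S a) (hb : Hull S b) :
    Hull S (fun n => cnt (a n) (b n)) := by
  have := Hull.app₂ (.base 16) ha hb
  simpa [Code.eval, baseFn] using this

theorem repN_two_mul_add_two_sq {x : (mod S hU).Num} {a : ℕ → ℕ} (h : RepN hU x a) :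
    ∃ y : (mod S hU).Num, RepN hU y (fun n => (2 * a n + 2) ^ 2) := by
  have h2 := ((repN_one (hU := hU) (S := S)).add repN_one)
  have h3 := ((h.add h).add h2).mul ((h.add h).add h2)
  have he : (fun n => (a n + a n + (1 + 1)) * (a n + a n + (1 + 1))) =
      fun n => (2 * a n + 2) ^ 2 := by
    funext n
    ring
  rw [he] at h3
  exact ⟨_, h3⟩

theorem mod_numOnes : (mod S hU).NumOnes := by
  intro X
  obtain ⟨a, ha⟩ := exists_repS hU X
  obtain ⟨B, hB⟩ := repN_two_mul_add_two_sq ha.len
  have hY' : Hull S (fun n => numTable (a n)) := by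
    have := Hull.app (.base 12) ha.1
    simpa [Code.eval, baseFn] using this
  obtain ⟨Y, hY⟩ := exists_str hY' hB (Eventually.of_forall fun n => size_bitsOf_le _ _)
  have key : ∀ {z y : (mod S hU).Num} {z' y' : ℕ → ℕ}, RepN hU z z' → RepN hU y y' →
      (mod S hU).le z ((mod S hU).len X) →
      ((mod S hU).mem ((mod S hU).pair z y) Y ↔
        ∀ᶠ n in (U : Filter ℕ), y' n = cnt (a n) (z' n)) := by
    intro z y z' y' hz hy hle
    rw [le_iff hz ha.len] at hle
    rw [mem_iff (hz.pair hy) hY]
    refine eventually_congr ?_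
    filter_upwards [hle] with n hn using numTable_testBit hn
  refine ⟨Y, fun z hz => ?_, ?_, ?_⟩
  · obtain ⟨z', hz'⟩ := exists_repN hU z
    obtain ⟨y, hy⟩ := exists_num (hull_cnt ha.1 hz'.1) hz'
      (Eventually.of_forall fun n => cnt_le _ _)
    refine ⟨y, (key hz' hy hz).2 (Eventually.of_forall fun n => rfl), fun y2 hy2 => ?_⟩
    obtain ⟨y3, hy3⟩ := exists_repN hU y2
    exact (eqN_iff hy3 hy).2 ((key hz' hy3 hz).1 hy2)
  · rw [key repN_zero repN_zero (mod_basic.B9 _)]
    exact Eventually.of_forall fun n => (cnt_zero _).symm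
  · intro z hz y hy
    obtain ⟨z', hz'⟩ := exists_repN hU z
    obtain ⟨y', hy'⟩ := exists_repN hU y
    have hz1 : (mod S hU).le ((mod S hU).add z (mod S hU).one) ((mod S hU).len X) := by
      rw [lt_iff hz' ha.len] at hz
      rw [le_iff (hz'.add repN_one) ha.len]
      exact hz
    rw [key hz' hy' hz.1] at hy
    rw [key (hz'.add repN_one) (hy'.add repN_one) hz1, key (hz'.add repN_one) hy' hz1,
      mem_iff hz' ha]
    constructor
    · intro h
      filter_upwards [h, hy] with n h1 h2
      rw [cnt_succ, if_pos h1, h2]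
    · intro h
      rw [← Ultrafilter.eventually_not] at h
      filter_upwards [h, hy] with n h1 h2
      rw [cnt_succ, if_neg h1, h2, add_zero]

theorem mod_vtc0 : (mod S hU).VTC0 where
  basic := mod_basic
  comp := mod_comp
  numOnes := mod_numOnes

end Pool.Agent.H673.VTC
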