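import Pool.Agent.H673.VTC.Hull

/-!
# The two-sorted structure of a hull, and the theorem of Łoś for `Σ^B_0` formulas
-/

set_option autoImplicit false

namespace Pool.Agent.H673.VTC

open Filter TwoSorted

/-- The value of a number term in `ℕ`; strings are the natural numbers, read in binary. -/
def valN {n s : ℕ} (v : Fin n → ℕ) (V : Fin s → ℕ) : Tm n s → ℕ
  | .var i => v i
  | .zero => 0
  | .one => 1
  | .add t u => valN v V t + valN v V u
  | .mul t u => valN v V t * valN v V u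
  | .len j => (V j).size

/-- Satisfaction of `Σ^B_0` formulas in `ℕ`. -/
def SatN {s : ℕ} (V : Fin s → ℕ) : {n : ℕ} → Fm s n → (Fin n → ℕ) → Prop
  | _, .eq t u, v => valN v V t = valN v V u
  | _, .le t u, v => valN v V t ≤ valN v V u
  | _, .mem t j, v => (V j).testBit (valN v V t) = true
  | _, .strEq i j, _ => V i = V j
  | _, .not φ, v => ¬ SatN V φ v
  | _, .and φ ψ, v => SatN V φ v ∧ SatN V ψ v
  | _, .allLe t φ, v => ∀ x : ℕ, x ≤ valN v V t → SatN V φ (Matrix.vecCons x v)

/-! ### Codes for terms and formulas -/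

/-- coding of tuples of strings -/
def encS : (s : ℕ) → (Fin s → ℕ) → ℕ
  | 0, _ => 0
  | s + 1, V => Nat.pair (V 0) (encS s (fun j => V j.succ))

/-- coding of assignments -/
def enc {s : ℕ} (V : Fin s → ℕ) : (n : ℕ) → (Fin n → ℕ) → ℕ
  | 0, _ => encS s V
  | n + 1, v => Nat.pair (v 0) (enc V n (fun i => v i.succ))

theorem enc_vecCons {s n : ℕ} (V : Fin s → ℕ) (v : Fin n → ℕ) (x : ℕ) :
    enc V (n + 1) (Matrix.vecCons x v) = Nat.pair x (enc V n v) := by
  simp [enc]

theorem exists_code_encS {s : ℕ} (j : Fin s) : ∃ c : Code, ∀ V, c.eval (encS s V) = V j := by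
  induction s with
  | zero => exact j.elim0
  | succ s ih =>
    refine Fin.cases ?_ (fun j => ?_) j
    · exact ⟨.base 0, fun V => by simp [Code.eval, baseFn, encS]⟩
    · obtain ⟨c, hc⟩ := ih j
      exact ⟨.comp c (.base 1), fun V => by simp [Code.eval, baseFn, encS, hc]⟩

theorem exists_code_str {s : ℕ} (n : ℕ) (j : Fin s) :
    ∃ c : Code, ∀ (V : Fin s → ℕ) (v : Fin n → ℕ), c.eval (enc V n v) = V j := by
  induction n with
  | zero =>
    obtain ⟨c, hc⟩ := exists_code_encS j
    exact ⟨c, fun V v => by simp [enc, hc]⟩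
  | succ n ih =>
    obtain ⟨c, hc⟩ := ih
    exact ⟨.comp c (.base 1), fun V v => by simp [Code.eval, baseFn, enc, hc]⟩

theorem exists_code_num (s : ℕ) {n : ℕ} (i : Fin n) :
    ∃ c : Code, ∀ (V : Fin s → ℕ) (v : Fin n → ℕ), c.eval (enc V n v) = v i := by
  induction n with
  | zero => exact i.elim0
  | succ n ih =>
    refine Fin.cases ?_ (fun i => ?_) i
    · exact ⟨.base 0, fun V v => by simp [Code.eval, baseFn, enc]⟩
    · obtain ⟨c, hc⟩ := ih i
      exact ⟨.comp c (.base 1), fun V v => by simp [Code.eval, baseFn, enc, hc]⟩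

theorem exists_code_tm {n s : ℕ} (t : Tm n s) :
    ∃ c : Code, ∀ (V : Fin s → ℕ) (v : Fin n → ℕ), c.eval (enc V n v) = valN v V t := by
  induction t with
  | var i =>
    obtain ⟨c, hc⟩ := exists_code_num s i
    exact ⟨c, fun V v => by rw [hc]; rfl⟩
  | zero => exact ⟨.const 0, fun V v => rfl⟩
  | one => exact ⟨.const 1, fun V v => rfl⟩
  | add t u iht ihu =>
    obtain ⟨c, hc⟩ := iht
    obtain ⟨d, hd⟩ := ihu
    exact ⟨.comp (.base 2) (.pair c d), fun V v => by
      simp [Code.eval, baseFn, hc, hd, valN]⟩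
  | mul t u iht ihu =>
    obtain ⟨c, hc⟩ := iht
    obtain ⟨d, hd⟩ := ihu
    exact ⟨.comp (.base 4) (.pair c d), fun V v => by
      simp [Code.eval, baseFn, hc, hd, valN]⟩
  | len j =>
    obtain ⟨c, hc⟩ := exists_code_str n j
    exact ⟨.comp (.base 7) c, fun V v => by simp [Code.eval, baseFn, hc, valN]⟩

theorem exists_code_fm {s n : ℕ} (φ : Fm s n) :
    ∃ c : Code, ∀ (V : Fin s → ℕ) (v : Fin n → ℕ),
      c.eval (enc V n v) ≠ 0 ↔ SatN V φ v := by
  induction φ with
  | eq t u =>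
    obtain ⟨c, hc⟩ := exists_code_tm t
    obtain ⟨d, hd⟩ := exists_code_tm u
    exact ⟨.comp (.base 10) (.pair c d), fun V v => by
      simp [Code.eval, baseFn, hc, hd, SatN]⟩
  | le t u =>
    obtain ⟨c, hc⟩ := exists_code_tm t
    obtain ⟨d, hd⟩ := exists_code_tm u
    exact ⟨.comp (.base 9) (.pair c d), fun V v => by
      simp [Code.eval, baseFn, hc, hd, SatN]⟩
  | @mem n t j =>
    obtain ⟨c, hc⟩ := exists_code_tm t
    obtain ⟨d, hd⟩ := exists_code_str n j
    exact ⟨.comp (.base 8) (.pair c d), fun V v => by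
      simp [Code.eval, baseFn, hc, hd, SatN]⟩
  | @strEq n i j =>
    obtain ⟨c, hc⟩ := exists_code_str n i
    obtain ⟨d, hd⟩ := exists_code_str n j
    exact ⟨.comp (.base 10) (.pair c d), fun V v => by
      simp [Code.eval, baseFn, hc, hd, SatN]⟩
  | not φ ih =>
    obtain ⟨c, hc⟩ := ih
    refine ⟨.comp (.base 14) c, fun V v => ?_⟩
    have := hc V v
    simp only [Code.eval, baseFn, SatN, ← this]
    simp
  | and φ ψ ihφ ihψ =>
    obtain ⟨c, hc⟩ := ihφ
    obtain ⟨d, hd⟩ := ihψ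
    refine ⟨.comp (.base 4) (.pair c d), fun V v => ?_⟩
    have h1 := hc V v
    have h2 := hd V v
    simp only [Code.eval, baseFn, SatN, ← h1, ← h2]
    simp
  | @allLe n t φ ih =>
    obtain ⟨c, hc⟩ := ih
    obtain ⟨d, hd⟩ := exists_code_tm t
    refine ⟨.comp (.base 14) (.comp (.ex (.comp (.base 14) c)) (.pair d (.base 17))),
      fun V v => ?_⟩
    have h1 : ∀ x : ℕ, c.eval (Nat.pair x (enc V n v)) ≠ 0 ↔
        SatN V φ (Matrix.vecCons x v) := fun x => by
      rw [← hc, enc_vecCons]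
    simp only [Code.eval, baseFn, SatN, Nat.unpair_pair, hd]
    constructor
    · intro h x hx
      by_contra hcon
      apply h
      rw [if_neg]
      rw [if_pos]
      · exact one_ne_zero
      · refine ⟨x, hx, ?_⟩
        rw [if_pos]
        · exact one_ne_zero
        · by_contra h2
          exact hcon ((h1 x).1 h2)
    · intro h h2
      have h3 : ¬ ∃ z, z ≤ valN v V t ∧
          (if c.eval (Nat.pair z (enc V n v)) = 0 then 1 else 0) ≠ 0 := by
        rintro ⟨z, hz, hz2⟩
        have := (h1 z).2 (h z hz)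
        rw [if_neg this] at hz2
        exact hz2 rfl
      rw [if_neg h3] at h2
      simp at h2

/-! ### The structure of a hull -/

section

variable (U : Ultrafilter ℕ) (S : Set (ℕ → ℕ))

/-- The ultrapower of `ℕ`. -/
abbrev G : Type := Germ (U : Filter ℕ) ℕ

/-- The numbers of the structure. -/
def NumSet : Set (G U) :=
  {x | ∃ a : ℕ → ℕ, Hull S a ∧ x = (a : G U) ∧ ∃ k : ℕ, ∀ᶠ n in (U : Filter ℕ), a n < 2 ^ (n * k)}

/-- The strings of the structure. -/
def StrSet : Set (G U) :=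
  {x | ∃ a : ℕ → ℕ, Hull S a ∧ x = (a : G U) ∧
    ∃ k : ℕ, ∀ᶠ n in (U : Filter ℕ), (a n).size < 2 ^ (n * k)}

end

section

variable {U : Ultrafilter ℕ} {S : Set (ℕ → ℕ)}

theorem Hull.app₂ (c : Code) {a b : ℕ → ℕ} (ha : Hull S a) (hb : Hull S b) :
    Hull S (fun n => c.eval (Nat.pair (a n) (b n))) := Hull.app c (Hull.pair ha hb)

theorem Hull.add {a b : ℕ → ℕ} (ha : Hull S a) (hb : Hull S b) : Hull S (a + b) := by
  have := Hull.app₂ (.base 2) ha hb
  simp only [Code.eval, baseFn, Nat.unpair_pair] at this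
  exact this

theorem Hull.sub {a b : ℕ → ℕ} (ha : Hull S a) (hb : Hull S b) :
    Hull S (fun n => a n - b n) := by
  have := Hull.app₂ (.base 3) ha hb
  simpa [Code.eval, baseFn] using this

theorem Hull.mul {a b : ℕ → ℕ} (ha : Hull S a) (hb : Hull S b) : Hull S (a * b) := by
  have := Hull.app₂ (.base 4) ha hb
  simp only [Code.eval, baseFn, Nat.unpair_pair] at this
  exact this

theorem Hull.size {a : ℕ → ℕ} (ha : Hull S a) : Hull S (fun n => (a n).size) := by
  have := Hull.app (.base 7) ha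
  simpa [Code.eval, baseFn] using this

theorem Hull.twoPow {a : ℕ → ℕ} (ha : Hull S a) : Hull S (fun n => 2 ^ (a n)) := by
  have := Hull.app (.base 11) ha
  simpa [Code.eval, baseFn] using this

theorem mem_numSet {a : ℕ → ℕ} (ha : Hull S a) {k : ℕ}
    (hk : ∀ᶠ n in (U : Filter ℕ), a n < 2 ^ (n * k)) : (a : G U) ∈ NumSet U S :=
  ⟨a, ha, rfl, k, hk⟩

theorem mem_strSet {a : ℕ → ℕ} (ha : Hull S a) {k : ℕ}
    (hk : ∀ᶠ n in (U : Filter ℕ), (a n).size < 2 ^ (n * k)) : (a : G U) ∈ StrSet U S :=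
  ⟨a, ha, rfl, k, hk⟩

theorem eventually_one_le (hU : (U : Filter ℕ) ≤ atTop) : ∀ᶠ n in (U : Filter ℕ), 1 ≤ n :=
  hU (eventually_ge_atTop 1)

theorem zero_mem_numSet : (0 : G U) ∈ NumSet U S :=
  mem_numSet (a := fun _ => 0) (Hull.const 0) (k := 0) (Eventually.of_forall fun n => by simp)

theorem one_mem_numSet (hU : (U : Filter ℕ) ≤ atTop) : (1 : G U) ∈ NumSet U S :=
  mem_numSet (a := fun _ => 1) (Hull.const 1) (k := 1) (by
    filter_upwards [eventually_one_le hU] with n hn
    exact Nat.one_lt_two_pow (by omega))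

theorem add_bound {a b n k l : ℕ} (hn : 1 ≤ n) (ha : a < 2 ^ (n * k)) (hb : b < 2 ^ (n * l)) :
    a + b < 2 ^ (n * (k + l + 1)) := by
  have h1 : 2 ^ (n * k) ≤ 2 ^ (n * (k + l)) := Nat.pow_le_pow_right (by norm_num) (by nlinarith)
  have h2 : 2 ^ (n * l) ≤ 2 ^ (n * (k + l)) := Nat.pow_le_pow_right (by norm_num) (by nlinarith)
  have h3 : 2 ^ (n * (k + l) + 1) ≤ 2 ^ (n * (k + l + 1)) :=
    Nat.pow_le_pow_right (by norm_num) (by nlinarith)
  rw [pow_succ] at h3
  omega

theorem mul_bound {a b n k l : ℕ} (ha : a < 2 ^ (n * k)) (hb : b < 2 ^ (n * l)) :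
    a * b < 2 ^ (n * (k + l)) := by
  rw [mul_add, pow_add]
  exact Nat.mul_lt_mul'' ha hb

theorem add_mem_numSet (hU : (U : Filter ℕ) ≤ atTop) {x y : G U} (hx : x ∈ NumSet U S)
    (hy : y ∈ NumSet U S) : x + y ∈ NumSet U S := by
  obtain ⟨a, ha, rfl, k, hk⟩ := hx
  obtain ⟨b, hb, rfl, l, hl⟩ := hy
  refine mem_numSet (a := a + b) (ha.add hb) (k := k + l + 1) ?_
  filter_upwards [hk, hl, eventually_one_le hU] with n h1 h2 h3
  exact add_bound h3 h1 h2

theorem mul_mem_numSet {x y : G U} (hx : x ∈ NumSet U S)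
    (hy : y ∈ NumSet U S) : x * y ∈ NumSet U S := by
  obtain ⟨a, ha, rfl, k, hk⟩ := hx
  obtain ⟨b, hb, rfl, l, hl⟩ := hy
  refine mem_numSet (a := a * b) (ha.mul hb) (k := k + l) ?_
  filter_upwards [hk, hl] with n h1 h2
  exact mul_bound h1 h2

theorem size_mem_numSet {x : G U} (hx : x ∈ StrSet U S) : x.map Nat.size ∈ NumSet U S := by
  obtain ⟨a, ha, rfl, k, hk⟩ := hx
  exact mem_numSet (a := fun n => (a n).size) ha.size (k := k) hk

/-- The two-sorted structure of the hull of `S`. -/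
noncomputable abbrev mod (S : Set (ℕ → ℕ)) (hU : (U : Filter ℕ) ≤ atTop) : TwoSorted where
  Num := NumSet U S
  Str := StrSet U S
  zero := ⟨0, zero_mem_numSet⟩
  one := ⟨1, one_mem_numSet hU⟩
  add x y := ⟨x.1 + y.1, add_mem_numSet hU x.2 y.2⟩
  mul x y := ⟨x.1 * y.1, mul_mem_numSet x.2 y.2⟩
  le x y := x.1 ≤ y.1
  len X := ⟨X.1.map Nat.size, size_mem_numSet X.2⟩
  mem i X := Germ.LiftRel (fun a b => Nat.testBit b a = true) i.1 X.1

variable (hU : (U : Filter ℕ) ≤ atTop)

/-- The sequence `a` represents the number `x`. -/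
def RepN (x : (mod S hU).Num) (a : ℕ → ℕ) : Prop := Hull S a ∧ x.1 = (a : G U)

/-- The sequence `a` represents the string `X`. -/
def RepS (X : (mod S hU).Str) (a : ℕ → ℕ) : Prop := Hull S a ∧ X.1 = (a : G U)

theorem exists_repN (x : (mod S hU).Num) : ∃ a, RepN hU x a := by
  obtain ⟨a, ha, hx, -⟩ := x.2
  exact ⟨a, ha, hx⟩

theorem exists_repS (X : (mod S hU).Str) : ∃ a, RepS hU X a := by
  obtain ⟨a, ha, hx, -⟩ := X.2
  exact ⟨a, ha, hx⟩

variable {hU}

theorem RepN.bound {x : (mod S hU).Num} {a : ℕ → ℕ} (h : RepN hU x a) :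
    ∃ k : ℕ, ∀ᶠ n in (U : Filter ℕ), a n < 2 ^ (n * k) := by
  obtain ⟨b, hb, hx, k, hk⟩ := x.2
  have h1 : (a : G U) = (b : G U) := h.2.symm.trans hx
  rw [Germ.coe_eq] at h1
  refine ⟨k, ?_⟩
  filter_upwards [h1, hk] with n h2 h3
  rw [h2]
  exact h3

theorem RepS.bound {X : (mod S hU).Str} {a : ℕ → ℕ} (h : RepS hU X a) :
    ∃ k : ℕ, ∀ᶠ n in (U : Filter ℕ), (a n).size < 2 ^ (n * k) := by
  obtain ⟨b, hb, hx, k, hk⟩ := X.2
  have h1 : (a : G U) = (b : G U) := h.2.symm.trans hx
  rw [Germ.coe_eq] at h1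
  refine ⟨k, ?_⟩
  filter_upwards [h1, hk] with n h2 h3
  rw [h2]
  exact h3

theorem eqN_iff {x y : (mod S hU).Num} {a b : ℕ → ℕ} (hx : RepN hU x a) (hy : RepN hU y b) :
    x = y ↔ ∀ᶠ n in (U : Filter ℕ), a n = b n := by
  rw [Subtype.ext_iff, hx.2, hy.2, Germ.coe_eq]
  rfl

theorem eqS_iff {x y : (mod S hU).Str} {a b : ℕ → ℕ} (hx : RepS hU x a) (hy : RepS hU y b) :
    x = y ↔ ∀ᶠ n in (U : Filter ℕ), a n = b n := by
  rw [Subtype.ext_iff, hx.2, hy.2, Germ.coe_eq]
  rfl

theorem le_iff {x y : (mod S hU).Num} {a b : ℕ → ℕ} (hx : RepN hU x a) (hy : RepN hU y b) :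
    (mod S hU).le x y ↔ ∀ᶠ n in (U : Filter ℕ), a n ≤ b n := by
  show x.1 ≤ y.1 ↔ _
  rw [hx.2, hy.2, Germ.coe_le]
  rfl

theorem mem_iff {x : (mod S hU).Num} {X : (mod S hU).Str} {a b : ℕ → ℕ} (hx : RepN hU x a)
    (hX : RepS hU X b) :
    (mod S hU).mem x X ↔ ∀ᶠ n in (U : Filter ℕ), (b n).testBit (a n) = true := by
  have h : (mod S hU).mem x X ↔
      Germ.LiftRel (fun a b : ℕ => Nat.testBit b a = true) x.1 X.1 := Iff.rfl
  rw [h, hx.2, hX.2, Germ.liftRel_coe]

theorem lt_iff {x y : (mod S hU).Num} {a b : ℕ → ℕ} (hx : RepN hU x a) (hy : RepN hU y b) :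
    (mod S hU).lt x y ↔ ∀ᶠ n in (U : Filter ℕ), a n < b n := by
  unfold TwoSorted.lt
  rw [le_iff hx hy, Ne, eqN_iff hx hy, ← Ultrafilter.eventually_not, ← eventually_and]
  refine eventually_congr (Eventually.of_forall fun n => ?_)
  omega

theorem repN_zero : RepN hU (mod S hU).zero (fun _ => 0) := ⟨Hull.const 0, rfl⟩

theorem repN_one : RepN hU (mod S hU).one (fun _ => 1) := ⟨Hull.const 1, rfl⟩

theorem RepN.add {x y : (mod S hU).Num} {a b : ℕ → ℕ} (hx : RepN hU x a) (hy : RepN hU y b) :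
    RepN hU ((mod S hU).add x y) (fun n => a n + b n) := by
  refine ⟨hx.1.add hy.1, ?_⟩
  show x.1 + y.1 = _
  rw [hx.2, hy.2]
  rfl

theorem RepN.mul {x y : (mod S hU).Num} {a b : ℕ → ℕ} (hx : RepN hU x a) (hy : RepN hU y b) :
    RepN hU ((mod S hU).mul x y) (fun n => a n * b n) := by
  refine ⟨hx.1.mul hy.1, ?_⟩
  show x.1 * y.1 = _
  rw [hx.2, hy.2]
  rfl

theorem RepS.len {X : (mod S hU).Str} {a : ℕ → ℕ} (hX : RepS hU X a) :
    RepN hU ((mod S hU).len X) (fun n => (a n).size) := by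
  refine ⟨hX.1.size, ?_⟩
  show X.1.map Nat.size = _
  rw [hX.2]
  rfl

theorem RepN.pair {x y : (mod S hU).Num} {a b : ℕ → ℕ} (hx : RepN hU x a) (hy : RepN hU y b) :
    RepN hU ((mod S hU).pair x y) (fun n => prN (a n) (b n)) := by
  have h := ((hx.add hy).mul ((hx.add hy).add repN_one)).add ((repN_one.add repN_one).mul hy)
  exact h

/-- A number given by a bounded sequence of the hull. -/
theorem exists_num {a b : ℕ → ℕ} (ha : Hull S a) {y : (mod S hU).Num} (hy : RepN hU y b)
    (hab : ∀ᶠ n in (U : Filter ℕ), a n ≤ b n) : ∃ x : (mod S hU).Num, RepN hU x a := by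
  obtain ⟨k, hk⟩ := hy.bound
  exact ⟨⟨a, mem_numSet ha (k := k) (by
    filter_upwards [hab, hk] with n h1 h2
    exact lt_of_le_of_lt h1 h2)⟩, ha, rfl⟩

/-- A string given by a sequence of the hull with bounded size. -/
theorem exists_str {a b : ℕ → ℕ} (ha : Hull S a) {y : (mod S hU).Num} (hy : RepN hU y b)
    (hab : ∀ᶠ n in (U : Filter ℕ), (a n).size ≤ b n) : ∃ x : (mod S hU).Str, RepS hU x a := by
  obtain ⟨k, hk⟩ := hy.bound
  exact ⟨⟨a, mem_strSet ha (k := k) (by
    filter_upwards [hab, hk] with n h1 h2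
    exact lt_of_le_of_lt h1 h2)⟩, ha, rfl⟩

theorem hull_encS {s : ℕ} {V : Fin s → ℕ → ℕ} (hV : ∀ j, Hull S (V j)) :
    Hull S (fun m => encS s (fun j => V j m)) := by
  induction s with
  | zero => exact Hull.const 0
  | succ s ih => exact Hull.pair (hV 0) (ih (fun j => hV j.succ))

theorem hull_enc {s n : ℕ} {V : Fin s → ℕ → ℕ} {v : Fin n → ℕ → ℕ} (hV : ∀ j, Hull S (V j))
    (hv : ∀ i, Hull S (v i)) : Hull S (fun m => enc (fun j => V j m) n (fun i => v i m)) := by
  induction n with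
  | zero => exact hull_encS hV
  | succ n ih => exact Hull.pair (hv 0) (ih (fun i => hv i.succ))

theorem rep_val {s n : ℕ} {V : Fin s → (mod S hU).Str} {v : Fin n → (mod S hU).Num}
    {V' : Fin s → ℕ → ℕ} {v' : Fin n → ℕ → ℕ} (hV : ∀ j, RepS hU (V j) (V' j))
    (hv : ∀ i, RepN hU (v i) (v' i)) (t : Tm n s) :
    RepN hU ((mod S hU).val v V t)
      (fun m => valN (fun i => v' i m) (fun j => V' j m) t) := by
  induction t with
  | var i => exact hv i
  | zero => exact repN_zero
  | one => exact repN_one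
  | add t u iht ihu => exact iht.add ihu
  | mul t u iht ihu => exact iht.mul ihu
  | len j => exact (hV j).len

/-- The theorem of Łoś for `Σ^B_0` formulas. -/
theorem los {s n : ℕ} (φ : Fm s n) {V : Fin s → (mod S hU).Str} {v : Fin n → (mod S hU).Num}
    {V' : Fin s → ℕ → ℕ} {v' : Fin n → ℕ → ℕ} (hV : ∀ j, RepS hU (V j) (V' j))
    (hv : ∀ i, RepN hU (v i) (v' i)) :
    (mod S hU).Sat V φ v ↔
      ∀ᶠ m in (U : Filter ℕ), SatN (fun j => V' j m) φ (fun i => v' i m) := by
  induction φ with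
  | eq t u => exact eqN_iff (rep_val hV hv t) (rep_val hV hv u)
  | le t u => exact le_iff (rep_val hV hv t) (rep_val hV hv u)
  | mem t j => exact mem_iff (rep_val hV hv t) (hV j)
  | strEq i j => exact eqS_iff (hV i) (hV j)
  | not φ ih =>
    simp only [TwoSorted.Sat, SatN]
    rw [ih hv, ← Ultrafilter.eventually_not]
  | and φ ψ ihφ ihψ =>
    simp only [TwoSorted.Sat, SatN]
    rw [ihφ hv, ihψ hv, ← eventually_and]
  | @allLe n t φ ih =>
    simp only [TwoSorted.Sat, SatN]
    have htt := rep_val hV hv t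
    constructor
    · intro h
      by_contra hcon
      rw [← Ultrafilter.eventually_not] at hcon
      obtain ⟨c, hc⟩ := exists_code_fm φ
      obtain ⟨d, hd⟩ := exists_code_tm t
      let x' : ℕ → ℕ := fun m => (Code.comp (.search (.comp (.base 14) c))
        (.pair d (.base 17))).eval (enc (fun j => V' j m) n (fun i => v' i m))
      have hx' : Hull S x' := Hull.app _ (hull_enc (fun j => (hV j).1) (fun i => (hv i).1))
      have hx2 : ∀ᶠ m in (U : Filter ℕ),
          x' m ≤ valN (fun i => v' i m) (fun j => V' j m) t ∧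
          ¬ SatN (fun j => V' j m) φ (Matrix.vecCons (x' m) (fun i => v' i m)) := by
        filter_upwards [hcon] with m hm
        have hex : ∃ z, z ≤ valN (fun i => v' i m) (fun j => V' j m) t ∧
            (Code.comp (.base 14) c).eval
              (Nat.pair z (enc (fun j => V' j m) n (fun i => v' i m))) ≠ 0 := by
          push Not at hm
          obtain ⟨z, hz, hz2⟩ := hm
          refine ⟨z, hz, ?_⟩
          rw [← hc, enc_vecCons, not_not] at hz2
          simp [Code.eval, baseFn, hz2]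
        have hxe : x' m = Nat.find hex := by
          simp only [x', Code.eval, baseFn, Nat.unpair_pair, hd]
          simp only [Code.eval, baseFn] at hex
          rw [dif_pos hex]
        have hsp := Nat.find_spec hex
        rw [← hxe] at hsp
        refine ⟨hsp.1, ?_⟩
        rw [← hc, enc_vecCons, not_not]
        have h2 := hsp.2
        simp only [Code.eval, baseFn] at h2
        by_contra h3
        rw [if_neg h3] at h2
        exact h2 rfl
      obtain ⟨x, hx⟩ := exists_num hx' htt (hx2.mono fun m hm => hm.1)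
      have h1 := h x ((le_iff hx htt).2 (hx2.mono fun m hm => hm.1))
      have h2 := (ih (v := Matrix.vecCons x v) (v' := Matrix.vecCons x' v')
        (by
          intro i
          refine Fin.cases ?_ (fun i => ?_) i
          · exact hx
          · exact hv i)).1 h1
      obtain ⟨m, hm1, hm2⟩ := (h2.and hx2).exists
      apply hm2.2
      have he : (Matrix.vecCons (x' m) fun i => v' i m) =
          fun i => Matrix.vecCons (α := ℕ → ℕ) x' v' i m := by
        funext i
        refine Fin.cases ?_ (fun i => ?_) i <;> simp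
      rw [he]
      exact hm1
    · intro h x hx
      obtain ⟨x', hx'⟩ := exists_repN hU x
      refine (ih (v := Matrix.vecCons x v) (v' := Matrix.vecCons x' v')
        (by
          intro i
          refine Fin.cases ?_ (fun i => ?_) i
          · exact hx'
          · exact hv i)).2 ?_
      filter_upwards [h, (le_iff hx' htt).1 hx] with m hm hm2
      have := hm _ hm2
      have he : (Matrix.vecCons (x' m) fun i => v' i m) =
          fun i => Matrix.vecCons (α := ℕ → ℕ) x' v' i m := by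
        funext i
        refine Fin.cases ?_ (fun i => ?_) i <;> simp
      rw [he] at this
      exact this

end

end Pool.Agent.H673.VTC
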