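import Pool.Agent.H673.VTC.Code

/-!
# Binary digits of natural numbers
-/

set_option autoImplicit false

namespace Pool.Agent.H673.VTC

theorem carryN_zero (x y : ℕ) : ¬ carryN x y 0 := by
  rintro ⟨k, hk, -⟩
  omega

theorem carryN_succ (x y i : ℕ) : carryN x y (i + 1) ↔
    (x.testBit i = true ∧ y.testBit i = true) ∨
      ((x.testBit i = true ∨ y.testBit i = true) ∧ carryN x y i) := by
  constructor
  · rintro ⟨k, hk, h1, h2, h3⟩
    rcases Nat.lt_or_eq_of_le (Nat.lt_succ_iff.1 hk) with hk | rfl
    · exact Or.inr ⟨h3 i hk (Nat.lt_succ_self i), k, hk, h1, h2,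
        fun j hj hji => h3 j hj (by omega)⟩
    · exact Or.inl ⟨h1, h2⟩
  · rintro (⟨h1, h2⟩ | ⟨h, k, hk, h1, h2, h3⟩)
    · exact ⟨i, Nat.lt_succ_self i, h1, h2, fun j hj hji => by omega⟩
    · refine ⟨k, by omega, h1, h2, fun j hj hji => ?_⟩
      rcases Nat.lt_or_eq_of_le (Nat.lt_succ_iff.1 hji) with hji | rfl
      · exact h3 j hj hji
      · exact h

theorem carry_iff_carryN (w x y i : ℕ) (hi : i ≤ w) :
    BitVec.carry i (BitVec.ofNat w x) (BitVec.ofNat w y) false = true ↔ carryN x y i := by
  induction i with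
  | zero => simp [carryN_zero]
  | succ i ih =>
    have ih := ih (by omega)
    rw [BitVec.carry_succ, carryN_succ, ← ih, BitVec.getLsbD_ofNat, BitVec.getLsbD_ofNat]
    have hi' : decide (i < w) = true := by simpa using (show i < w by omega)
    rw [hi']
    cases x.testBit i <;> cases y.testBit i <;>
      cases BitVec.carry i (BitVec.ofNat w x) (BitVec.ofNat w y) false <;> simp [Bool.atLeastTwo]

theorem testBit_add_iff (x y i : ℕ) : (x + y).testBit i = true ↔
    Xor (Xor (x.testBit i = true) (y.testBit i = true)) (carryN x y i) := by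
  have h1 : (BitVec.ofNat (i + 1) x + BitVec.ofNat (i + 1) y).getLsbD i = (x + y).testBit i := by
    rw [← BitVec.ofNat_add, BitVec.getLsbD_ofNat]
    simp
  rw [← h1, BitVec.getLsbD_add (Nat.lt_succ_self i), BitVec.getLsbD_ofNat, BitVec.getLsbD_ofNat,
    ← carry_iff_carryN (i + 1) x y i (by omega)]
  have hi' : decide (i < i + 1) = true := by simp
  rw [hi']
  cases x.testBit i <;> cases y.testBit i <;>
    cases BitVec.carry i (BitVec.ofNat (i + 1) x) (BitVec.ofNat (i + 1) y) false <;>
      simp [Xor]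

theorem topDiff_spec {x y : ℕ} (h : x ≠ y) : x.testBit (topDiff x y) ≠ y.testBit (topDiff x y) ∧
    ∀ j, topDiff x y < j → x.testBit j = y.testBit j := by
  have h0 : x ^^^ y ≠ 0 := fun hc => h (Nat.xor_eq_zero_iff.1 hc)
  have hs : 0 < (x ^^^ y).size := Nat.size_pos.2 (Nat.pos_of_ne_zero h0)
  constructor
  · intro hc
    have h1 : (x ^^^ y).testBit (topDiff x y) = false := by
      rw [Nat.testBit_xor, hc]
      simp
    have h2 : x ^^^ y < 2 ^ (topDiff x y) := by
      apply Nat.lt_pow_two_of_testBit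
      intro i hi
      rcases Nat.eq_or_lt_of_le hi with rfl | hi
      · exact h1
      · apply Nat.testBit_lt_two_pow
        refine lt_of_lt_of_le (Nat.lt_size_self _) (Nat.pow_le_pow_right (by norm_num) ?_)
        unfold topDiff at hi
        omega
    have h3 := Nat.size_le.2 h2
    unfold topDiff at h3
    omega
  · intro j hj
    have h1 : (x ^^^ y).testBit j = false := by
      apply Nat.testBit_lt_two_pow
      refine lt_of_lt_of_le (Nat.lt_size_self _) (Nat.pow_le_pow_right (by norm_num) ?_)
      unfold topDiff at hj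
      omega
    rw [Nat.testBit_xor] at h1
    cases hx : x.testBit j <;> cases hy : y.testBit j <;> simp_all

theorem topDiff_lt {x y : ℕ} (h : x < y) : ¬ x.testBit (topDiff x y) = true ∧
    y.testBit (topDiff x y) = true ∧ ∀ j, topDiff x y < j → x.testBit j = y.testBit j := by
  obtain ⟨h1, h2⟩ := topDiff_spec h.ne
  cases hx : x.testBit (topDiff x y) with
  | false =>
    rw [hx] at h1
    refine ⟨by simp, ?_, h2⟩
    cases hy : y.testBit (topDiff x y) with
    | false => rw [hy] at h1; exact absurd rfl h1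
    | true => rfl
  | true =>
    rw [hx] at h1
    have hy : y.testBit (topDiff x y) = false := by
      cases hy : y.testBit (topDiff x y) with
      | false => rfl
      | true => rw [hy] at h1; exact absurd rfl h1
    have h3 := Nat.lt_of_testBit (topDiff x y) hy hx (fun j hj => (h2 j hj).symm)
    omega

theorem topDiff_comm (x y : ℕ) : topDiff x y = topDiff y x := by
  unfold topDiff
  rw [Nat.xor_comm]

theorem testBit_rowN (w i j : ℕ) : (rowN w i).testBit j = true ↔ w.testBit (prN i j) = true := by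
  unfold rowN
  rw [testBit_bitsOf]
  refine ⟨fun h => h.2, fun h => ⟨?_, h⟩⟩
  have h1 : prN i j < w.size := by
    by_contra hc
    have h1 : w < 2 ^ (prN i j) := Nat.size_le.1 (not_lt.1 hc)
    rw [Nat.testBit_lt_two_pow h1] at h
    exact Bool.false_ne_true h
  unfold prN at h1
  nlinarith [Nat.zero_le ((i + j) * (i + j + 1))]

theorem testBit_shiftIf (x y i j : ℕ) : (shiftIf x y i).testBit j = true ↔
    x.testBit i = true ∧ i ≤ j ∧ y.testBit (j - i) = true := by
  unfold shiftIf
  split_ifs with h
  · rw [Nat.testBit_mul_two_pow]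
    simp [h]
  · simp [h]

theorem mod_two_pow_succ' (x i : ℕ) :
    x % 2 ^ (i + 1) = x % 2 ^ i + if x.testBit i = true then 2 ^ i else 0 := by
  rw [Nat.mod_pow_succ, Nat.testBit_eq_decide_div_mod_eq]
  rcases Nat.mod_two_eq_zero_or_one (x / 2 ^ i) with h | h <;> simp [h]

theorem partN_zero (x y : ℕ) : partN x y 0 = 0 := by
  unfold partN
  simp [Nat.mod_one]

theorem partN_succ (x y i : ℕ) : partN x y (i + 1) = partN x y i + shiftIf x y i := by
  unfold partN shiftIf
  rw [mod_two_pow_succ']
  split_ifs <;> ring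

theorem partN_size (x y : ℕ) : partN x y x.size = x * y := by
  unfold partN
  rw [Nat.mod_eq_of_lt (Nat.lt_size_self x)]

theorem partN_lt (x y i : ℕ) : partN x y i < 2 ^ (x.size + y.size) := by
  unfold partN
  rw [pow_add]
  exact Nat.mul_lt_mul'' (lt_of_le_of_lt (Nat.mod_le _ _) (Nat.lt_size_self x))
    (Nat.lt_size_self y)

theorem size_partN_le (x y i : ℕ) : (partN x y i).size ≤ x.size + y.size :=
  Nat.size_le.2 (partN_lt x y i)

theorem mulTable_testBit {x y i : ℕ} (hi : i ≤ x.size) (j : ℕ) :
    (mulTable x y).testBit (prN i j) = true ↔ (partN x y i).testBit j = true := by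
  unfold mulTable
  rw [testBit_bitsOf]
  constructor
  · rintro ⟨-, i', -, j', h, h'⟩
    obtain ⟨rfl, rfl⟩ := prN_inj h
    exact h'
  · intro h
    refine ⟨prN_lt (by omega) ?_, i, hi, j, rfl, h⟩
    by_contra hc
    rw [Nat.testBit_lt_two_pow (lt_of_lt_of_le (partN_lt x y i)
      (Nat.pow_le_pow_right (by norm_num) (not_le.1 hc).le))] at h
    exact Bool.false_ne_true h

theorem wrongRow_spec {w x y i : ℕ} (h : rowN w i ≠ partN x y i) :
    rowN w (wrongRow w x y) ≠ partN x y (wrongRow w x y) ∧ wrongRow w x y ≤ i ∧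
      ∀ i' < wrongRow w x y, rowN w i' = partN x y i' := by
  have hex : ∃ i, rowN w i ≠ partN x y i := ⟨i, h⟩
  unfold wrongRow
  rw [dif_pos hex]
  exact ⟨Nat.find_spec hex, Nat.find_min' hex h, fun i' hi' => by
    have := Nat.find_min hex hi'
    exact not_not.1 this⟩

end Pool.Agent.H673.VTC
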