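import Pool.Agent.H673.VTC.IsVTC
import Pool.Agent.H673.VTC.NatBits

/-!
# The ring of binary integers of the structure of a hull
-/

set_option autoImplicit false

namespace Pool.Agent.H673.VTC

open Filter TwoSorted

variable {U : Ultrafilter ℕ} {S : Set (ℕ → ℕ)} {hU : (U : Filter ℕ) ≤ atTop}

section hulls

variable {a b c d : ℕ → ℕ}

theorem Hull.app₃ (e : Code) (ha : Hull S a) (hb : Hull S b) (hc : Hull S c) :
    Hull S (fun n => e.eval (Nat.pair (a n) (Nat.pair (b n) (c n)))) :=
  Hull.app e (Hull.pair ha (Hull.pair hb hc))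

theorem Hull.app₄ (e : Code) (ha : Hull S a) (hb : Hull S b) (hc : Hull S c) (hd : Hull S d) :
    Hull S (fun n => e.eval (Nat.pair (a n) (Nat.pair (b n) (Nat.pair (c n) (d n))))) :=
  Hull.app e (Hull.pair ha (Hull.pair hb (Hull.pair hc hd)))

theorem Hull.carK (ha : Hull S a) (hb : Hull S b) (hc : Hull S c) :
    Hull S (fun n => carK (a n) (b n) (c n)) := by
  have := Hull.app₃ (.base 18) ha hb hc
  simpa [Code.eval, baseFn] using this

theorem Hull.badJ (ha : Hull S a) (hb : Hull S b) (hc : Hull S c) (hd : Hull S d) :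
    Hull S (fun n => badJ (a n) (b n) (c n) (d n)) := by
  have := Hull.app₄ (.base 19) ha hb hc hd
  simpa [Code.eval, baseFn] using this

theorem Hull.topDiff (ha : Hull S a) (hb : Hull S b) : Hull S (fun n => topDiff (a n) (b n)) := by
  have := Hull.app₂ (.base 20) ha hb
  simpa [Code.eval, baseFn] using this

theorem Hull.shiftIf (ha : Hull S a) (hb : Hull S b) (hc : Hull S c) :
    Hull S (fun n => shiftIf (a n) (b n) (c n)) := by
  have := Hull.app₃ (.base 21) ha hb hc
  simpa [Code.eval, baseFn] using this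

theorem Hull.rowN (ha : Hull S a) (hb : Hull S b) : Hull S (fun n => rowN (a n) (b n)) := by
  have := Hull.app₂ (.base 22) ha hb
  simpa [Code.eval, baseFn] using this

theorem Hull.partN (ha : Hull S a) (hb : Hull S b) (hc : Hull S c) :
    Hull S (fun n => partN (a n) (b n) (c n)) := by
  have := Hull.app₃ (.base 23) ha hb hc
  simpa [Code.eval, baseFn] using this

theorem Hull.wrongRow (ha : Hull S a) (hb : Hull S b) (hc : Hull S c) :
    Hull S (fun n => wrongRow (a n) (b n) (c n)) := by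
  have := Hull.app₃ (.base 24) ha hb hc
  simpa [Code.eval, baseFn] using this

theorem Hull.mulTable (ha : Hull S a) (hb : Hull S b) :
    Hull S (fun n => mulTable (a n) (b n)) := by
  have := Hull.app₂ (.base 13) ha hb
  simpa [Code.eval, baseFn] using this

end hulls

/-- The digits of `p` give the predicate `P`. -/
def RepP (hU : (U : Filter ℕ) ≤ atTop) (P : (mod S hU).Num → Prop) (p : ℕ → ℕ) : Prop :=
  ∀ x x', RepN hU x x' → (P x ↔ ∀ᶠ n in (U : Filter ℕ), (p n).testBit (x' n) = true)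

theorem RepS.repP {X : (mod S hU).Str} {a : ℕ → ℕ} (h : RepS hU X a) :
    RepP hU (fun i => (mod S hU).mem i X) a := fun _ _ hx => mem_iff hx h

theorem topDiff_lt_size {x y : ℕ} (h : x < y) : topDiff x y < y.size :=
  lt_size_of_testBit (topDiff_lt h).2.1

theorem topDiff_le {x y : ℕ} (h : x ≠ y) : topDiff x y ≤ x.size + y.size := by
  rcases lt_or_gt_of_ne h with h | h
  · have := topDiff_lt_size h
    omega
  · have := topDiff_lt_size h
    rw [topDiff_comm] at this
    omega

theorem str_ext {X Y : (mod S hU).Str} (h : ∀ i, (mod S hU).mem i X ↔ (mod S hU).mem i Y) :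
    X = Y := by
  obtain ⟨a, ha⟩ := exists_repS hU X
  obtain ⟨b, hb⟩ := exists_repS hU Y
  rw [eqS_iff ha hb]
  by_contra hcon
  rw [← Ultrafilter.eventually_not] at hcon
  obtain ⟨i, hi⟩ := exists_num (ha.1.topDiff hb.1) (ha.len.add hb.len)
    (hcon.mono fun n hn => topDiff_le hn)
  have h1 := h i
  rw [mem_iff hi ha, mem_iff hi hb] at h1
  by_cases h2 : ∀ᶠ n in (U : Filter ℕ), (a n).testBit (topDiff (a n) (b n)) = true
  · obtain ⟨n, hn1, hn2, hn3⟩ := (h2.and ((h1.1 h2).and hcon)).exists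
    exact (topDiff_spec hn3).1 (hn1.trans hn2.symm)
  · have h3 : ¬ ∀ᶠ n in (U : Filter ℕ), (b n).testBit (topDiff (a n) (b n)) = true :=
      fun h3 => h2 (h1.2 h3)
    rw [← Ultrafilter.eventually_not] at h2 h3
    obtain ⟨n, hn1, hn2, hn3⟩ := (h2.and (h3.and hcon)).exists
    apply (topDiff_spec hn3).1
    simp only [Bool.not_eq_true] at hn1 hn2
    exact hn1.trans hn2.symm

theorem carry_iff {P Q : (mod S hU).Num → Prop} {p q i' : ℕ → ℕ} (hP : RepP hU P p)
    (hQ : RepP hU Q q) (hp : Hull S p) (hq : Hull S q) {i : (mod S hU).Num} (hi : RepN hU i i') :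
    (mod S hU).Carry P Q i ↔ ∀ᶠ n in (U : Filter ℕ), carryN (p n) (q n) (i' n) := by
  constructor
  · rintro ⟨k, hk, hPk, hQk, hall⟩
    obtain ⟨k', hk'⟩ := exists_repN hU k
    rw [lt_iff hk' hi] at hk
    rw [hP k k' hk'] at hPk
    rw [hQ k k' hk'] at hQk
    by_contra hcon
    rw [← Ultrafilter.eventually_not] at hcon
    have h1 : ∀ᶠ n in (U : Filter ℕ), k' n < badJ (p n) (q n) (k' n) (i' n) ∧
        badJ (p n) (q n) (k' n) (i' n) < i' n ∧
        ¬ (p n).testBit (badJ (p n) (q n) (k' n) (i' n)) = true ∧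
        ¬ (q n).testBit (badJ (p n) (q n) (k' n) (i' n)) = true := by
      filter_upwards [hk, hPk, hQk, hcon] with n h1 h2 h3 h4
      have hex : ∃ j, k' n < j ∧ j < i' n ∧ ¬ (p n).testBit j = true ∧
          ¬ (q n).testBit j = true := by
        by_contra hno
        apply h4
        refine ⟨k' n, h1, h2, h3, fun j hj1 hj2 => ?_⟩
        by_contra hor
        rw [not_or] at hor
        exact hno ⟨j, hj1, hj2, hor.1, hor.2⟩
      unfold badJ
      rw [dif_pos hex]
      exact Nat.find_spec hex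
    obtain ⟨j, hj⟩ := exists_num (hp.badJ hq hk'.1 hi.1) hi (h1.mono fun n hn => hn.2.1.le)
    have h2 := hall j ((lt_iff hk' hj).2 (h1.mono fun n hn => hn.1))
      ((lt_iff hj hi).2 (h1.mono fun n hn => hn.2.1))
    rcases h2 with h2 | h2
    · obtain ⟨n, hn1, hn2⟩ := (((hP j _ hj).1 h2).and h1).exists
      exact hn2.2.2.1 hn1
    · obtain ⟨n, hn1, hn2⟩ := (((hQ j _ hj).1 h2).and h1).exists
      exact hn2.2.2.2 hn1
  · intro h
    have h1 : ∀ᶠ n in (U : Filter ℕ), carK (p n) (q n) (i' n) < i' n ∧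
        (p n).testBit (carK (p n) (q n) (i' n)) = true ∧
        (q n).testBit (carK (p n) (q n) (i' n)) = true ∧
        ∀ j, carK (p n) (q n) (i' n) < j → j < i' n →
          (p n).testBit j = true ∨ (q n).testBit j = true := by
      filter_upwards [h] with n hn
      classical
      have he : carK (p n) (q n) (i' n) = Nat.find hn := by
        unfold carK
        rw [dif_pos hn]
      rw [he]
      exact Nat.find_spec hn
    obtain ⟨k, hk⟩ := exists_num (hp.carK hq hi.1) hi (h1.mono fun n hn => hn.1.le)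
    refine ⟨k, (lt_iff hk hi).2 (h1.mono fun n hn => hn.1),
      (hP k _ hk).2 (h1.mono fun n hn => hn.2.1), (hQ k _ hk).2 (h1.mono fun n hn => hn.2.2.1),
      fun j hj1 hj2 => ?_⟩
    obtain ⟨j', hj'⟩ := exists_repN hU j
    rw [lt_iff hk hj'] at hj1
    rw [lt_iff hj' hi] at hj2
    rw [hP j j' hj', hQ j j' hj', ← Ultrafilter.eventually_or]
    filter_upwards [h1, hj1, hj2] with n h1 h2 h3 using h1.2.2.2 _ h2 h3

theorem eventually_xor {A B : ℕ → Prop} : (∀ᶠ n in (U : Filter ℕ), Xor (A n) (B n)) ↔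
    Xor (∀ᶠ n in (U : Filter ℕ), A n) (∀ᶠ n in (U : Filter ℕ), B n) := by
  unfold Xor
  rw [Ultrafilter.eventually_or, eventually_and, eventually_and, Ultrafilter.eventually_not,
    Ultrafilter.eventually_not]

theorem addP_iff {P Q R : (mod S hU).Num → Prop} {p q : ℕ → ℕ} (hP : RepP hU P p)
    (hQ : RepP hU Q q) (hp : Hull S p) (hq : Hull S q) :
    (mod S hU).AddP P Q R ↔ RepP hU R (fun n => p n + q n) := by
  have key : ∀ i i', RepN hU i i' →
      (Xor (Xor (P i) (Q i)) ((mod S hU).Carry P Q i) ↔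
        ∀ᶠ n in (U : Filter ℕ), (p n + q n).testBit (i' n) = true) := by
    intro i i' hi
    simp only [testBit_add_iff]
    rw [eventually_xor, eventually_xor, ← hP i i' hi, ← hQ i i' hi, ← carry_iff hP hQ hp hq hi]
  constructor
  · intro h i i' hi
    rw [← key i i' hi]
    exact h i
  · intro h i
    obtain ⟨i', hi⟩ := exists_repN hU i
    rw [h i i' hi, key i i' hi]

theorem size_add_le' (x y : ℕ) : (x + y).size ≤ x.size + y.size + 1 := by
  rw [Nat.size_le]
  have h1 := Nat.lt_size_self x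
  have h2 := Nat.lt_size_self y
  have h3 : 2 ^ x.size ≤ 2 ^ (x.size + y.size) := Nat.pow_le_pow_right (by norm_num) (by omega)
  have h4 : 2 ^ y.size ≤ 2 ^ (x.size + y.size) := Nat.pow_le_pow_right (by norm_num) (by omega)
  rw [pow_succ]
  omega

theorem size_mul_le' (x y : ℕ) : (x * y).size ≤ x.size + y.size := by
  rw [Nat.size_le, pow_add]
  exact Nat.mul_lt_mul'' (Nat.lt_size_self x) (Nat.lt_size_self y)

theorem exists_add_str {X Y : (mod S hU).Str} {a b : ℕ → ℕ} (ha : RepS hU X a)
    (hb : RepS hU Y b) : ∃ Z : (mod S hU).Str, RepS hU Z (fun n => a n + b n) :=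
  exists_str (ha.1.add hb.1) ((ha.len.add hb.len).add repN_one)
    (Eventually.of_forall fun _ => size_add_le' _ _)

theorem exists_mul_str {X Y : (mod S hU).Str} {a b : ℕ → ℕ} (ha : RepS hU X a)
    (hb : RepS hU Y b) : ∃ Z : (mod S hU).Str, RepS hU Z (fun n => a n * b n) :=
  exists_str (ha.1.mul hb.1) (ha.len.add hb.len)
    (Eventually.of_forall fun _ => size_mul_le' _ _)

theorem addS_iff {X Y Z : (mod S hU).Str} {a b : ℕ → ℕ} (ha : RepS hU X a)
    (hb : RepS hU Y b) : (mod S hU).AddS X Y Z ↔ RepS hU Z (fun n => a n + b n) := by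
  unfold TwoSorted.AddS
  rw [addP_iff ha.repP hb.repP ha.1 hb.1]
  constructor
  · intro h
    obtain ⟨Z', hZ'⟩ := exists_add_str ha hb
    have : Z = Z' := str_ext fun i => by
      obtain ⟨i', hi⟩ := exists_repN hU i
      exact (h i i' hi).trans (mem_iff hi hZ').symm
    rw [this]
    exact hZ'
  · intro h
    exact h.repP

theorem ltS_iff {X Y : (mod S hU).Str} : (mod S hU).ltS X Y ↔ X.1 < Y.1 := by
  obtain ⟨a, ha⟩ := exists_repS hU X
  obtain ⟨b, hb⟩ := exists_repS hU Y
  rw [ha.2, hb.2, Germ.coe_lt]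
  constructor
  · rintro ⟨i, hiY, hiX, hall⟩
    obtain ⟨i', hi⟩ := exists_repN hU i
    rw [mem_iff hi hb] at hiY
    rw [mem_iff hi ha, ← Ultrafilter.eventually_not] at hiX
    by_contra hcon
    rw [← Ultrafilter.eventually_not] at hcon
    have h1 : ∀ᶠ n in (U : Filter ℕ), b n < a n := by
      filter_upwards [hcon, hiY, hiX] with n h1 h2 h3
      rcases lt_or_eq_of_le (not_lt.1 h1) with h4 | h4
      · exact h4
      · rw [h4] at h2
        exact absurd h2 h3
    have h2 : ∀ᶠ n in (U : Filter ℕ), i' n < topDiff (b n) (a n) := by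
      filter_upwards [h1, hiY, hiX] with n h1 h2 h3
      obtain ⟨h4, h5, h6⟩ := topDiff_lt h1
      rcases lt_trichotomy (i' n) (topDiff (b n) (a n)) with h | h | h
      · exact h
      · rw [← h] at h4
        exact absurd h2 h4
      · rw [h6 _ h] at h2
        exact absurd h2 h3
    obtain ⟨j, hj⟩ := exists_num (hb.1.topDiff ha.1) ha.len
      (h1.mono fun n hn => (topDiff_lt_size hn).le)
    have h3 := hall j ((lt_iff hi hj).2 h2)
    rw [mem_iff hj ha, mem_iff hj hb] at h3
    obtain ⟨n, hn1, hn2⟩ := ((h3.1 (h1.mono fun n hn => (topDiff_lt hn).2.1)).and h1).exists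
    exact (topDiff_lt hn2).1 hn1
  · intro h
    obtain ⟨i, hi⟩ := exists_num (ha.1.topDiff hb.1) hb.len
      (h.mono fun n hn => (topDiff_lt_size hn).le)
    refine ⟨i, (mem_iff hi hb).2 (h.mono fun n hn => (topDiff_lt hn).2.1), ?_, ?_⟩
    · rw [mem_iff hi ha, ← Ultrafilter.eventually_not]
      exact h.mono fun n hn => (topDiff_lt hn).1
    · intro j hj
      obtain ⟨j', hj'⟩ := exists_repN hU j
      rw [lt_iff hi hj'] at hj
      rw [mem_iff hj' ha, mem_iff hj' hb]
      refine eventually_congr ?_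
      filter_upwards [h, hj] with n h1 h2
      rw [(topDiff_lt h1).2.2 _ h2]

theorem repP_shift {X Y : (mod S hU).Str} {i : (mod S hU).Num} {a b i' : ℕ → ℕ}
    (ha : RepS hU X a) (hb : RepS hU Y b) (hi : RepN hU i i') :
    RepP hU (fun j => (mod S hU).mem i X ∧ ∃ l, (mod S hU).add l i = j ∧ (mod S hU).mem l Y)
      (fun n => shiftIf (a n) (b n) (i' n)) := by
  intro j j' hj
  constructor
  · rintro ⟨h1, l, h2, h3⟩
    obtain ⟨l', hl⟩ := exists_repN hU l
    rw [mem_iff hi ha] at h1
    rw [mem_iff hl hb] at h3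
    rw [eqN_iff (hl.add hi) hj] at h2
    filter_upwards [h1, h2, h3] with n h1 h2 h3
    rw [testBit_shiftIf]
    refine ⟨h1, by omega, ?_⟩
    rw [← h2, Nat.add_sub_cancel]
    exact h3
  · intro h
    simp only [testBit_shiftIf] at h
    obtain ⟨l, hl⟩ := exists_num (hj.1.sub hi.1) hj
      (Eventually.of_forall fun n => Nat.sub_le _ _)
    refine ⟨(mem_iff hi ha).2 (h.mono fun n hn => hn.1), l, (eqN_iff (hl.add hi) hj).2 ?_,
      (mem_iff hl hb).2 (h.mono fun n hn => hn.2.2)⟩
    filter_upwards [h] with n hn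
    omega

theorem mulS_of_rep {X Y Z : (mod S hU).Str} {a b : ℕ → ℕ} (ha : RepS hU X a)
    (hb : RepS hU Y b) (hZ : RepS hU Z (fun n => a n * b n)) : (mod S hU).MulS X Y Z := by
  obtain ⟨B, hB⟩ := repN_two_mul_add_two_sq (ha.len.add hb.len)
  obtain ⟨W, hW⟩ := exists_str (ha.1.mulTable hb.1) hB
    (Eventually.of_forall fun n => size_bitsOf_le _ _)
  have row : ∀ {i : (mod S hU).Num} {i' : ℕ → ℕ}, RepN hU i i' →
      (mod S hU).le i ((mod S hU).len X) →
      RepP hU (fun j => (mod S hU).mem ((mod S hU).pair i j) W)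
        (fun n => partN (a n) (b n) (i' n)) := by
    intro i i' hi hle j j' hj
    rw [le_iff hi ha.len] at hle
    show (mod S hU).mem ((mod S hU).pair i j) W ↔ _
    rw [mem_iff (hi.pair hj) hW]
    refine eventually_congr ?_
    filter_upwards [hle] with n hn using mulTable_testBit hn _
  refine ⟨W, fun j h => ?_, fun i hi => ?_, fun j => ?_⟩
  · obtain ⟨j', hj⟩ := exists_repN hU j
    have := (row repN_zero (mod_basic.B9 _) j j' hj).1 h
    obtain ⟨n, hn⟩ := this.exists
    simp [partN_zero] at hn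
  · obtain ⟨i', hi'⟩ := exists_repN hU i
    rw [addP_iff (row hi' hi.1) (repP_shift ha hb hi') (ha.1.partN hb.1 hi'.1)
      (ha.1.shiftIf hb.1 hi'.1)]
    have h1 : (mod S hU).le ((mod S hU).add i (mod S hU).one) ((mod S hU).len X) := by
      rw [lt_iff hi' ha.len] at hi
      rw [le_iff (hi'.add repN_one) ha.len]
      exact hi
    have h2 := row (hi'.add repN_one) h1
    simp only [partN_succ] at h2
    exact h2
  · obtain ⟨j', hj⟩ := exists_repN hU j
    have h1 : (mod S hU).le ((mod S hU).len X) ((mod S hU).len X) := le_refl ((mod S hU).len X).1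
    have h2 := row ha.len h1 j j' hj
    simp only [partN_size] at h2
    rw [mem_iff hj hZ]
    exact h2.symm

theorem mod_mulTotal (X Y : (mod S hU).Str) : ∃ Z, (mod S hU).MulS X Y Z := by
  obtain ⟨a, ha⟩ := exists_repS hU X
  obtain ⟨b, hb⟩ := exists_repS hU Y
  obtain ⟨Z, hZ⟩ := exists_mul_str ha hb
  exact ⟨Z, mulS_of_rep ha hb hZ⟩

theorem rep_of_mulS {X Y Z : (mod S hU).Str} {a b : ℕ → ℕ} (ha : RepS hU X a)
    (hb : RepS hU Y b) (h : (mod S hU).MulS X Y Z) : RepS hU Z (fun n => a n * b n) := by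
  obtain ⟨W, h0, hstep, hlast⟩ := h
  obtain ⟨w, hw⟩ := exists_repS hU W
  have hrow : ∀ {i : (mod S hU).Num} {i' : ℕ → ℕ}, RepN hU i i' →
      RepP hU (fun j => (mod S hU).mem ((mod S hU).pair i j) W)
        (fun n => rowN (w n) (i' n)) := by
    intro i i' hi j j' hj
    show (mod S hU).mem ((mod S hU).pair i j) W ↔ _
    rw [mem_iff (hi.pair hj) hw]
    simp only [testBit_rowN]
  have key : ∀ᶠ n in (U : Filter ℕ), rowN (w n) (a n).size = partN (a n) (b n) (a n).size := by
    by_contra hcon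
    rw [← Ultrafilter.eventually_not] at hcon
    have hsp : ∀ᶠ n in (U : Filter ℕ),
        rowN (w n) (wrongRow (w n) (a n) (b n)) ≠ partN (a n) (b n) (wrongRow (w n) (a n) (b n)) ∧
        wrongRow (w n) (a n) (b n) ≤ (a n).size ∧
        ∀ i' < wrongRow (w n) (a n) (b n), rowN (w n) i' = partN (a n) (b n) i' :=
      hcon.mono fun n hn => wrongRow_spec hn
    have hHi := hw.1.wrongRow ha.1 hb.1
    obtain ⟨i, hi⟩ := exists_num hHi ha.len (hsp.mono fun n hn => hn.2.1)
    -- the differing digit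
    have hHr := hw.1.rowN hi.1
    have hHp := ha.1.partN hb.1 hi.1
    obtain ⟨j, hj⟩ := exists_num (hHr.topDiff hHp) (hw.len.add (ha.len.add hb.len))
      (hsp.mono fun n hn => (topDiff_le hn.1).trans
        (Nat.add_le_add (size_bitsOf_le _ _) (size_partN_le _ _ _)))
    have hfin : (mod S hU).mem ((mod S hU).pair i j) W ↔
        ∀ᶠ n in (U : Filter ℕ), (partN (a n) (b n) (wrongRow (w n) (a n) (b n))).testBit
          (topDiff (rowN (w n) (wrongRow (w n) (a n) (b n)))
            (partN (a n) (b n) (wrongRow (w n) (a n) (b n)))) = true := by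
      by_cases hz : ∀ᶠ n in (U : Filter ℕ), wrongRow (w n) (a n) (b n) = 0
      · have hi0 : i = (mod S hU).zero := (eqN_iff hi repN_zero).2 hz
        constructor
        · intro h
          rw [hi0] at h
          exact absurd h (h0 j)
        · intro h
          obtain ⟨n, hn1, hn2⟩ := (h.and hz).exists
          rw [hn2, partN_zero] at hn1
          simp at hn1
      · rw [← Ultrafilter.eventually_not] at hz
        obtain ⟨i1, hi1⟩ := exists_num (hi.1.sub (Hull.const 1)) hi
          (Eventually.of_forall fun n => Nat.sub_le _ _)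
        have hlt : (mod S hU).lt i1 ((mod S hU).len X) := by
          rw [lt_iff hi1 ha.len]
          filter_upwards [hz, hsp] with n h1 h2
          have := h2.2.1
          omega
        have hieq : (mod S hU).add i1 (mod S hU).one = i := by
          rw [eqN_iff (hi1.add repN_one) hi]
          filter_upwards [hz] with n hn
          omega
        have h1 := hstep i1 hlt
        rw [addP_iff (hrow hi1) (repP_shift ha hb hi1) (hw.1.rowN hi1.1)
          (ha.1.shiftIf hb.1 hi1.1), hieq] at h1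
        refine (h1 j _ hj).trans ?_
        refine eventually_congr ?_
        filter_upwards [hz, hsp] with n h2 h3
        have h4 : rowN (w n) (wrongRow (w n) (a n) (b n) - 1) =
            partN (a n) (b n) (wrongRow (w n) (a n) (b n) - 1) := h3.2.2 _ (by omega)
        rw [h4, ← partN_succ, Nat.sub_add_cancel (by omega)]
    replace hfin := (hrow hi j _ hj).symm.trans hfin
    by_cases h2 : ∀ᶠ n in (U : Filter ℕ), (rowN (w n) (wrongRow (w n) (a n) (b n))).testBit
        (topDiff (rowN (w n) (wrongRow (w n) (a n) (b n)))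
            (partN (a n) (b n) (wrongRow (w n) (a n) (b n)))) = true
    · obtain ⟨n, hn1, hn2, hn3⟩ := (h2.and ((hfin.1 h2).and hsp)).exists
      exact (topDiff_spec hn3.1).1 (hn1.trans hn2.symm)
    · have h3 := fun h3 => h2 (hfin.2 h3)
      rw [← Ultrafilter.eventually_not] at h2
      have h3' := Ultrafilter.eventually_not.2 h3
      obtain ⟨n, hn1, hn2, hn3⟩ := (h2.and (h3'.and hsp)).exists
      apply (topDiff_spec hn3.1).1
      simp only [Bool.not_eq_true] at hn1 hn2
      exact hn1.trans hn2.symm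
  obtain ⟨Z', hZ'⟩ := exists_mul_str ha hb
  have : Z = Z' := str_ext fun j => by
    obtain ⟨j', hj⟩ := exists_repN hU j
    rw [hlast j]
    refine (hrow ha.len j j' hj).trans (Iff.trans ?_ (mem_iff hj hZ').symm)
    refine eventually_congr ?_
    filter_upwards [key] with n hn
    rw [hn, partN_size]
  rw [this]
  exact hZ'

/-- The ring of binary integers as a subring of the ultrapower of `ℤ`. -/
def intSubring (S : Set (ℕ → ℕ)) (hU : (U : Filter ℕ) ≤ atTop) :
    Subring (Germ (U : Filter ℕ) ℤ) where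
  carrier := {z | ∃ X : (mod S hU).Str, z = X.1.map (fun n : ℕ => (n : ℤ)) ∨
    z = - X.1.map (fun n : ℕ => (n : ℤ))}
  zero_mem' := by
    obtain ⟨X, hX⟩ := exists_str (hU := hU) (S := S) (Hull.const 0) repN_zero
      (Eventually.of_forall fun n => by simp)
    refine ⟨X, Or.inl ?_⟩
    rw [hX.2]
    rfl
  one_mem' := by
    obtain ⟨X, hX⟩ := exists_str (hU := hU) (S := S) (Hull.const 1) repN_one
      (Eventually.of_forall fun n => by simp)
    refine ⟨X, Or.inl ?_⟩
    rw [hX.2]
    rfl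
  neg_mem' := by
    rintro z ⟨X, rfl | rfl⟩
    · exact ⟨X, Or.inr rfl⟩
    · exact ⟨X, Or.inl (neg_neg _)⟩
  mul_mem' := by
    rintro x y ⟨X, hX⟩ ⟨Y, hY⟩
    obtain ⟨a, ha⟩ := exists_repS hU X
    obtain ⟨b, hb⟩ := exists_repS hU Y
    obtain ⟨Z, hZ⟩ := exists_mul_str ha hb
    have key : Z.1.map (fun n : ℕ => (n : ℤ)) =
        X.1.map (fun n : ℕ => (n : ℤ)) * Y.1.map (fun n : ℕ => (n : ℤ)) := by
      rw [hZ.2, ha.2, hb.2]
      simp only [Germ.map_coe]
      rw [← Germ.coe_mul, Germ.coe_eq]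
      exact Eventually.of_forall fun n => by simp
    rcases hX with rfl | rfl <;> rcases hY with rfl | rfl
    · exact ⟨Z, Or.inl key.symm⟩
    · exact ⟨Z, Or.inr (by rw [key]; ring)⟩
    · exact ⟨Z, Or.inr (by rw [key]; ring)⟩
    · exact ⟨Z, Or.inl (by rw [key]; ring)⟩
  add_mem' := by
    rintro x y ⟨X, hX⟩ ⟨Y, hY⟩
    obtain ⟨a, ha⟩ := exists_repS hU X
    obtain ⟨b, hb⟩ := exists_repS hU Y
    obtain ⟨Z, hZ⟩ := exists_add_str ha hb
    have key : Z.1.map (fun n : ℕ => (n : ℤ)) =
        X.1.map (fun n : ℕ => (n : ℤ)) + Y.1.map (fun n : ℕ => (n : ℤ)) := by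
      rw [hZ.2, ha.2, hb.2]
      simp only [Germ.map_coe]
      rw [← Germ.coe_add, Germ.coe_eq]
      exact Eventually.of_forall fun n => by simp
    -- differences
    have hsub : ∀ {X Y : (mod S hU).Str} {a b : ℕ → ℕ}, RepS hU X a → RepS hU Y b →
        ∃ D : (mod S hU).Str, X.1.map (fun n : ℕ => (n : ℤ)) - Y.1.map (fun n : ℕ => (n : ℤ)) =
            D.1.map (fun n : ℕ => (n : ℤ)) ∨
          X.1.map (fun n : ℕ => (n : ℤ)) - Y.1.map (fun n : ℕ => (n : ℤ)) =
            - D.1.map (fun n : ℕ => (n : ℤ)) := by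
      intro X Y a b ha hb
      by_cases h : ∀ᶠ n in (U : Filter ℕ), b n ≤ a n
      · obtain ⟨D, hD⟩ := exists_str (hU := hU) (ha.1.sub hb.1) ha.len
          (Eventually.of_forall fun n => Nat.size_le_size (Nat.sub_le _ _))
        refine ⟨D, Or.inl ?_⟩
        rw [hD.2, ha.2, hb.2]
        simp only [Germ.map_coe]
        rw [← Germ.coe_sub, Germ.coe_eq]
        filter_upwards [h] with n hn
        simp [hn]
      · rw [← Ultrafilter.eventually_not] at h
        obtain ⟨D, hD⟩ := exists_str (hU := hU) (hb.1.sub ha.1) hb.len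
          (Eventually.of_forall fun n => Nat.size_le_size (Nat.sub_le _ _))
        refine ⟨D, Or.inr ?_⟩
        rw [hD.2, ha.2, hb.2]
        simp only [Germ.map_coe]
        rw [← Germ.coe_sub, ← Germ.coe_neg, Germ.coe_eq]
        filter_upwards [h] with n hn
        have : a n ≤ b n := by omega
        simp [this]
    rcases hX with rfl | rfl <;> rcases hY with rfl | rfl
    · exact ⟨Z, Or.inl key.symm⟩
    · obtain ⟨D, hD⟩ := hsub ha hb
      exact ⟨D, by rwa [← sub_eq_add_neg]⟩
    · obtain ⟨D, hD⟩ := hsub hb ha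
      exact ⟨D, by rwa [neg_add_eq_sub]⟩
    · exact ⟨Z, Or.inr (by rw [key]; ring)⟩

theorem isRingOf_intSubring : (mod S hU).IsRingOf (intSubring S hU) := by
  refine ⟨fun X => ⟨X.1.map (fun n : ℕ => (n : ℤ)), X, Or.inl rfl⟩, ?_, ?_, ?_, ?_, ?_, ?_⟩
  · intro X Y h
    obtain ⟨a, ha⟩ := exists_repS hU X
    obtain ⟨b, hb⟩ := exists_repS hU Y
    have h' : X.1.map (fun n : ℕ => (n : ℤ)) = Y.1.map (fun n : ℕ => (n : ℤ)) :=
      congrArg Subtype.val h
    rw [ha.2, hb.2] at h'
    simp only [Germ.map_coe] at h'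
    rw [Germ.coe_eq] at h'
    rw [eqS_iff ha hb]
    filter_upwards [h'] with n hn
    simpa using hn
  · intro X
    obtain ⟨a, ha⟩ := exists_repS hU X
    show (0 : Germ (U : Filter ℕ) ℤ) ≤ X.1.map (fun n : ℕ => (n : ℤ))
    rw [ha.2, Germ.map_coe, ← Germ.coe_zero, Germ.coe_le]
    exact Eventually.of_forall fun n => by simp
  · rintro ⟨z, X, hX⟩
    refine ⟨X, ?_⟩
    rcases hX with rfl | rfl
    · exact Or.inl rfl
    · exact Or.inr rfl
  · intro X Y h
    obtain ⟨a, ha⟩ := exists_repS hU X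
    obtain ⟨b, hb⟩ := exists_repS hU Y
    rw [ltS_iff, ha.2, hb.2, Germ.coe_lt] at h
    show X.1.map (fun n : ℕ => (n : ℤ)) < Y.1.map (fun n : ℕ => (n : ℤ))
    rw [ha.2, hb.2]
    simp only [Germ.map_coe]
    rw [Germ.coe_lt]
    filter_upwards [h] with n hn
    simpa using hn
  · intro X Y Z h
    obtain ⟨a, ha⟩ := exists_repS hU X
    obtain ⟨b, hb⟩ := exists_repS hU Y
    rw [addS_iff ha hb] at h
    apply Subtype.ext
    show Z.1.map (fun n : ℕ => (n : ℤ)) =
      X.1.map (fun n : ℕ => (n : ℤ)) + Y.1.map (fun n : ℕ => (n : ℤ))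
    rw [h.2, ha.2, hb.2]
    simp only [Germ.map_coe]
    rw [← Germ.coe_add, Germ.coe_eq]
    exact Eventually.of_forall fun n => by simp
  · intro X Y Z h
    obtain ⟨a, ha⟩ := exists_repS hU X
    obtain ⟨b, hb⟩ := exists_repS hU Y
    have h := rep_of_mulS ha hb h
    apply Subtype.ext
    show Z.1.map (fun n : ℕ => (n : ℤ)) =
      X.1.map (fun n : ℕ => (n : ℤ)) * Y.1.map (fun n : ℕ => (n : ℤ))
    rw [h.2, ha.2, hb.2]
    simp only [Germ.map_coe]
    rw [← Germ.coe_mul, Germ.coe_eq]
    exact Eventually.of_forall fun n => by simp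

end Pool.Agent.H673.VTC
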